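import Mathlib

set_option autoImplicit false

/-! Numerical inequality used for the bound on coefficients of products of sums of distinct variables. -/

namespace Pool.Agent.Hhelper52.BregmanKI

open Real

/-- `log (n!)`. -/
noncomputable def lf (n : ℕ) : ℝ := Real.log (n.factorial : ℝ)

/-- `log (n!) / n`. -/
noncomputable def L (n : ℕ) : ℝ := lf n / n

/-- `log ((q+1)^q / q!)`. -/
noncomputable def b (q : ℕ) : ℝ := q * Real.log ((q : ℝ) + 1) - lf q

/-- `log (1 + 1/(q+1))`. -/
noncomputable def dl (q : ℕ) : ℝ := Real.log ((q : ℝ) + 2) - Real.log ((q : ℝ) + 1)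

theorem lf_zero : lf 0 = 0 := by simp [lf]

theorem lf_one : lf 1 = 0 := by simp [lf]

theorem lf_succ (n : ℕ) : lf (n + 1) = lf n + Real.log ((n : ℝ) + 1) := by
  unfold lf
  rw [Nat.factorial_succ]
  push_cast
  rw [Real.log_mul (by positivity) (by positivity)]
  ring

theorem lf_nonneg (n : ℕ) : 0 ≤ lf n := by
  unfold lf
  apply Real.log_nonneg
  exact_mod_cast Nat.factorial_pos n

theorem L_mul (n : ℕ) : (n : ℝ) * L n = lf n := by
  unfold L
  rcases Nat.eq_zero_or_pos n with h | h
  · subst h; simp [lf]
  · field_simp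

theorem b_zero : b 0 = 0 := by simp [b, lf]

theorem b_succ (q : ℕ) : b (q + 1) = b q + ((q : ℝ) + 1) * dl q := by
  unfold b dl
  rw [lf_succ]
  push_cast
  have : (q : ℝ) + 1 + 1 = q + 2 := by ring
  rw [this]
  ring

theorem dl_le (q : ℕ) : dl q ≤ 1 / ((q : ℝ) + 1) := by
  unfold dl
  rw [← Real.log_div (by positivity) (by positivity)]
  have h := Real.log_le_sub_one_of_pos (x := ((q : ℝ) + 2) / (q + 1)) (by positivity)
  have h2 : ((q : ℝ) + 2) / (q + 1) - 1 = 1 / (q + 1) := by field_simp; ring
  linarith

theorem le_dl (q : ℕ) : 1 / ((q : ℝ) + 2) ≤ dl q := by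
  unfold dl
  have h := Real.one_sub_inv_le_log_of_pos (x := ((q : ℝ) + 2) / (q + 1)) (by positivity)
  rw [Real.log_div (by positivity) (by positivity)] at h
  have h2 : 1 - (((q : ℝ) + 2) / (q + 1))⁻¹ = 1 / (q + 2) := by field_simp; ring
  linarith

theorem dl_pos (q : ℕ) : 0 < dl q := lt_of_lt_of_le (by positivity) (le_dl q)

theorem b_nonneg (q : ℕ) : 0 ≤ b q := by
  induction q with
  | zero => rw [b_zero]
  | succ q ih =>
    rw [b_succ]
    have := dl_pos q
    positivity

theorem b_le (q : ℕ) : b q ≤ q := by
  induction q with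
  | zero => rw [b_zero]; simp
  | succ q ih =>
    rw [b_succ]
    have h := dl_le q
    have h2 : ((q : ℝ) + 1) * dl q ≤ ((q : ℝ) + 1) * (1 / (q + 1)) :=
      mul_le_mul_of_nonneg_left h (by positivity)
    have h3 : ((q : ℝ) + 1) * (1 / (q + 1)) = 1 := by field_simp
    push_cast
    linarith

/-- monotonicity of `(m+1) log (1 + 1/(m+1))`. -/
theorem dl_mono (m : ℕ) : ((m : ℝ) + 1) * dl m ≤ ((m : ℝ) + 2) * dl (m + 1) := by
  have hx : ((m : ℝ) + 2) / (m + 1) ∈ Set.Ioi (0 : ℝ) := by
    simp only [Set.mem_Ioi]; positivity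
  have hy : (1 : ℝ) ∈ Set.Ioi (0 : ℝ) := by simp only [Set.mem_Ioi]; norm_num
  have ha : (0 : ℝ) ≤ ((m : ℝ) + 1) / (m + 2) := by positivity
  have hb : (0 : ℝ) ≤ 1 / ((m : ℝ) + 2) := by positivity
  have hab : ((m : ℝ) + 1) / (m + 2) + 1 / ((m : ℝ) + 2) = 1 := by field_simp; ring
  have hc := (strictConcaveOn_log_Ioi.concaveOn).2 hx hy ha hb hab
  simp only [smul_eq_mul, Real.log_one, mul_zero, add_zero, mul_one] at hc
  have h1 : ((m : ℝ) + 1) / (m + 2) * ((m + 2) / (m + 1)) + 1 / (m + 2) = (m + 3) / (m + 2) := by
    field_simp; ring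
  rw [h1, Real.log_div (by positivity) (by positivity), Real.log_div (by positivity) (by positivity)] at hc
  have hpos : (0 : ℝ) < m + 2 := by positivity
  have h2 : ((m : ℝ) + 2) * (((m : ℝ) + 1) / (m + 2) * (Real.log (m + 2) - Real.log (m + 1))) ≤
      ((m : ℝ) + 2) * (Real.log (m + 3) - Real.log (m + 2)) := mul_le_mul_of_nonneg_left hc hpos.le
  have h3 : ((m : ℝ) + 2) * (((m : ℝ) + 1) / (m + 2) * (Real.log (m + 2) - Real.log (m + 1))) =
      (m + 1) * (Real.log (m + 2) - Real.log (m + 1)) := by field_simp
  unfold dl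
  push_cast
  have e1 : (m : ℝ) + 1 + 2 = m + 3 := by ring
  have e2 : (m : ℝ) + 1 + 1 = m + 2 := by ring
  rw [e1, e2]
  linarith

theorem b_le_dl (m : ℕ) : b m ≤ (m : ℝ) * (m + 1) * dl m := by
  induction m with
  | zero => simp [b_zero]
  | succ m ih =>
    rw [b_succ]
    push_cast
    have h := dl_mono m
    have h2 : ((m : ℝ) + 1) * (((m : ℝ) + 1) * dl m) ≤ ((m : ℝ) + 1) * (((m : ℝ) + 2) * dl (m + 1)) :=
      mul_le_mul_of_nonneg_left h (by positivity)
    have e2 : (m : ℝ) + 1 + 1 = m + 2 := by ring
    rw [e2]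
    nlinarith

theorem b_ratio_succ (m : ℕ) : b m * ((m : ℝ) + 1) ≤ b (m + 1) * m := by
  rw [b_succ]
  have := b_le_dl m
  nlinarith

/-- `b m / m` is monotone. -/
theorem b_ratio (q n : ℕ) (h : q ≤ n) : b q * (n : ℝ) ≤ b n * q := by
  induction n, h using Nat.le_induction with
  | base => exact le_refl _
  | succ n hn ih =>
    rcases Nat.eq_zero_or_pos n with h0 | h0
    · subst h0
      have : q = 0 := by omega
      subst this
      simp [b_zero]
    · have hpos : (0 : ℝ) < n := by exact_mod_cast h0
      have h1 := b_ratio_succ n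
      have hq : (0 : ℝ) ≤ q := by positivity
      have h2 : b n * ((n : ℝ) + 1) * q ≤ b (n + 1) * n * q := mul_le_mul_of_nonneg_right h1 hq
      have h3 : b q * (n : ℝ) * (n + 1) ≤ b n * q * (n + 1) :=
        mul_le_mul_of_nonneg_right ih (by positivity)
      have h4 : (b q * ((n : ℝ) + 1)) * n ≤ (b (n + 1) * q) * n := by nlinarith
      push_cast
      exact le_of_mul_le_mul_right h4 hpos

theorem L_succ_sub (n : ℕ) (hn : 1 ≤ n) : L (n + 1) - L n = b n / (n * (n + 1)) := by
  have hpos : (0 : ℝ) < n := by exact_mod_cast hn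
  unfold L b
  rw [lf_succ]
  push_cast
  field_simp
  ring

/-- base inequality `α! (q+1)^q ≥ q! (q+1)^α`. -/
theorem base_ineq (a q : ℕ) : 0 ≤ lf a + b q - a * Real.log ((q : ℝ) + 1) := by
  -- the function decreases until a = q and increases afterwards
  rcases le_total a q with h | h
  · -- downward induction from q
    obtain ⟨c, rfl⟩ := Nat.exists_eq_add_of_le h
    clear h
    have key : ∀ c : ℕ, ∀ M : ℝ, ((a : ℝ) + c) + 1 ≤ M → lf (a + c) ≤ lf a + c * Real.log M := by
      intro c
      induction c with
      | zero => intro M _; simp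
      | succ c ih =>
        intro M hM
        push_cast at hM ⊢
        have h1 := ih M (by linarith)
        rw [← add_assoc, lf_succ]
        have h2 : Real.log (((a + c : ℕ) : ℝ) + 1) ≤ Real.log M := by
          apply Real.log_le_log (by positivity)
          push_cast; linarith
        linarith
    have h3 := key c ((a : ℝ) + c + 1) le_rfl
    unfold b
    push_cast
    linarith
  · obtain ⟨c, rfl⟩ := Nat.exists_eq_add_of_le h
    clear h
    have key : ∀ c : ℕ, lf q + c * Real.log ((q : ℝ) + 1) ≤ lf (q + c) := by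
      intro c
      induction c with
      | zero => simp
      | succ c ih =>
        rw [← add_assoc, lf_succ]
        have h2 : Real.log ((q : ℝ) + 1) ≤ Real.log (((q + c : ℕ) : ℝ) + 1) := by
          apply Real.log_le_log (by positivity)
          push_cast
          have : (0 : ℝ) ≤ c := by positivity
          linarith
        push_cast at *
        linarith
    have h3 := key c
    unfold b
    push_cast
    linarith

/-- The key inequality, for `1 ≤ a < d ≤ n`, `q + 1 ≤ n`. -/
theorem key_lt (a d : ℕ) (had : a < d) (n : ℕ) (hdn : d ≤ n) :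
    ∀ q : ℕ, q + 1 ≤ n →
      a * L d - lf a ≤ a * (L n - Real.log ((q : ℝ) + 1)) + (d : ℝ) / n * b q := by
  induction n, hdn using Nat.le_induction with
  | base =>
    intro q _
    have h := base_ineq a q
    have hd : (0 : ℝ) < d := by
      have : 0 < d := by omega
      exact_mod_cast this
    have : (d : ℝ) / d = 1 := by field_simp
    rw [this]
    linarith
  | succ n hn ih =>
    intro q hq
    have hd : 0 < d := by omega
    have hn0 : 1 ≤ n := by omega
    have hpos : (0 : ℝ) < n := by exact_mod_cast hn0
    have hdpos : (0 : ℝ) < d := by exact_mod_cast hd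
    have hL := L_succ_sub n hn0
    have hLn : L (n + 1) = L n + b n / (n * (n + 1)) := by linarith
    have hqn : q ≤ n := by omega
    have hrat := b_ratio q n hqn
    have ha0 : (0 : ℝ) ≤ a := by positivity
    -- compare a * n with d * q
    rcases le_total (d * q) (a * n) with hcase | hcase
    · -- x ≥ q / n, so q + 1 ≤ n as a < d
      have hqn' : q + 1 ≤ n := by
        by_contra hcon
        have hq' : q = n := by omega
        subst hq'
        have : a * q < d * q := Nat.mul_lt_mul_of_pos_right had (by omega)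
        omega
      have h1 := ih q hqn'
      have hcaseR : (d : ℝ) * q ≤ a * n := by exact_mod_cast hcase
      have hdq : (d : ℝ) * b q ≤ a * b n := by
        have h3 : (d : ℝ) * b q * n ≤ d * (b n * q) := by
          have := mul_le_mul_of_nonneg_left hrat hdpos.le
          linarith
        have h4 : b n * (d * q) ≤ b n * (a * n) := mul_le_mul_of_nonneg_left hcaseR (b_nonneg n)
        have h5 : (d : ℝ) * b q * n ≤ (a * b n) * n := by linarith
        exact le_of_mul_le_mul_right h5 hpos
      have h6 : (d : ℝ) / n * b q - d / ((n + 1 : ℕ) : ℝ) * b q = (d * b q) / (n * (n + 1)) := by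
        push_cast
        field_simp
        ring
      have h7 : (d * b q) / ((n : ℝ) * (n + 1)) ≤ (a * b n) / (n * (n + 1)) := by
        apply div_le_div_of_nonneg_right hdq
        positivity
      have h8 : a * (L (n + 1) - Real.log ((q : ℝ) + 1)) =
          a * (L n - Real.log ((q : ℝ) + 1)) + (a * b n) / (n * (n + 1)) := by
        rw [hLn]; ring
      rw [h8]
      linarith
    · -- x ≤ q / n
      rcases Nat.eq_zero_or_pos q with hq0 | hq0
      · subst hq0
        have hcase' : a * n = 0 := by omega
        have ha : a = 0 := by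
          rcases Nat.mul_eq_zero.mp hcase' with h | h
          · exact h
          · omega
        subst ha
        simp [lf_zero, b_zero]
      · obtain ⟨p, rfl⟩ : ∃ p, q = p + 1 := ⟨q - 1, by omega⟩
        have h1 := ih p (by omega)
        have hcaseR : (a : ℝ) * n ≤ d * (p + 1) := by exact_mod_cast hcase
        push_cast at hrat ⊢
        have hb := b_succ p
        have hdl := le_dl p
        have hbn := b_le n
        have e1 : (p : ℝ) + 1 + 1 = p + 2 := by ring
        rw [e1]
        have hlog : Real.log ((p : ℝ) + 2) = Real.log ((p : ℝ) + 1) + dl p := by unfold dl; ring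
        rw [hlog, hLn]
        -- goal: difference is nonnegative
        have hpn : (p : ℝ) + 2 ≤ n + 1 := by
          have : p + 2 ≤ n + 1 := by omega
          exact_mod_cast this
        have hy : 0 ≤ (d : ℝ) * (p + 1) - a * n := by linarith
        -- multiply out by n (n+1)
        have key : 0 ≤ ((d : ℝ) * (p + 1) - a * n) * ((n + 1) * dl p) + a * b n - d * b (p + 1) := by
          have h2 : (1 : ℝ) ≤ (n + 1) * dl p := by
            have : (1 : ℝ) / (n + 1) ≤ 1 / (p + 2) := by
              apply one_div_le_one_div_of_le (by positivity) hpn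
            have h3 : (1 : ℝ) / (n + 1) ≤ dl p := by linarith
            have h4 : (n + 1 : ℝ) * (1 / (n + 1)) ≤ (n + 1) * dl p :=
              mul_le_mul_of_nonneg_left h3 (by positivity)
            have h5 : (n + 1 : ℝ) * (1 / (n + 1)) = 1 := by field_simp
            linarith
          have h3 : (d : ℝ) * b (p + 1) * n ≤ d * (b n * (p + 1)) := by
            have := mul_le_mul_of_nonneg_left hrat hdpos.le
            linarith
          have h4 : ((d : ℝ) * (p + 1) - a * n) * 1 ≤ ((d : ℝ) * (p + 1) - a * n) * ((n + 1) * dl p) :=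
            mul_le_mul_of_nonneg_left h2 hy
          have h5 : ((d : ℝ) * (p + 1) - a * n) * b n ≤ ((d : ℝ) * (p + 1) - a * n) * n :=
            mul_le_mul_of_nonneg_left hbn hy
          have h6 : 0 ≤ (((d : ℝ) * (p + 1) - a * n) + a * b n - d * b (p + 1)) * n := by
            nlinarith
          have h7 : 0 ≤ ((d : ℝ) * (p + 1) - a * n) + a * b n - d * b (p + 1) :=
            nonneg_of_mul_nonneg_left h6 hpos
          linarith
        have hfin : a * (L n + b n / (n * (n + 1)) - (Real.log ((p : ℝ) + 1) + dl p)) +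
            (d : ℝ) / (n + 1) * b (p + 1) =
            (a * (L n - Real.log ((p : ℝ) + 1)) + (d : ℝ) / n * b p) +
            (((d : ℝ) * (p + 1) - a * n) * ((n + 1) * dl p) + a * b n - d * b (p + 1)) /
              (n * (n + 1)) := by
          rw [hb]
          field_simp
          ring
        rw [hfin]
        have : 0 ≤ (((d : ℝ) * (p + 1) - a * n) * ((n + 1) * dl p) + a * b n - d * b (p + 1)) /
              (n * (n + 1)) := div_nonneg key (by positivity)
        linarith

/-- The key inequality, for `a ≤ d ≤ n`, `q + 1 ≤ n`. -/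
theorem key (a d n q : ℕ) (had : a ≤ d) (hdn : d ≤ n) (hq : q + 1 ≤ n) :
    a * L d - lf a ≤ a * (L n - Real.log ((q : ℝ) + 1)) + (d : ℝ) / n * b q := by
  rcases Nat.lt_or_ge a d with h | h
  · exact key_lt a d h n hdn q hq
  · have : a = d := le_antisymm had h
    subst this
    rw [L_mul]
    have hn : (0 : ℝ) < n := by
      have : 0 < n := by omega
      exact_mod_cast this
    have h1 := base_ineq n q
    have h2 : 0 ≤ (a : ℝ) / n * (lf n + b q - n * Real.log ((q : ℝ) + 1)) := by positivity
    have h3 : (a : ℝ) / n * (lf n + b q - n * Real.log ((q : ℝ) + 1)) =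
        a * (L n - Real.log ((q : ℝ) + 1)) + (a : ℝ) / n * b q := by
      unfold L
      field_simp
      ring
    linarith

end Pool.Agent.Hhelper52.BregmanKI
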