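import Mathlib
import Pool.Agent.Hhelper52.BregmanKI

set_option autoImplicit false

/-! Bregman-type inequality with multiplicities for the coefficients of a product of sums of distinct
variables. -/

namespace Pool.Agent.Hhelper52.BregmanMult

open MvPolynomial Pool.Agent.Hhelper52.BregmanKI

variable {σ ι : Type} [Fintype σ] [DecidableEq σ] [DecidableEq ι]

/-- product of the sums over `I`. -/
noncomputable def S (A : ι → Finset σ) (I : Finset ι) : MvPolynomial σ ℕ :=
  ∏ i ∈ I, ∑ j ∈ A i, X j

/-- coefficient. -/
noncomputable def P (A : ι → Finset σ) (I : Finset ι) (α : σ →₀ ℕ) : ℕ := coeff α (S A I)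

/-- number of sets of `I` containing `l`. -/
def D (A : ι → Finset σ) (I : Finset ι) (l : σ) : ℕ := (I.filter (fun i => l ∈ A i)).card

omit [Fintype σ] in
theorem P_row (A : ι → Finset σ) (I : Finset ι) (α : σ →₀ ℕ) (i : ι) (hi : i ∈ I) :
    P A I α = ∑ j ∈ A i, if α j ≠ 0 then P A (I.erase i) (α - Finsupp.single j 1) else 0 := by
  unfold P S
  rw [← Finset.mul_prod_erase I _ hi, Finset.sum_mul, coeff_sum]
  apply Finset.sum_congr rfl
  intro j _
  rw [coeff_X_mul']
  simp only [Finsupp.mem_support_iff]

omit [Fintype σ] in
theorem pderiv_S (A : ι → Finset σ) (I : Finset ι) (j : σ) :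
    pderiv j (S A I) = ∑ i ∈ I.filter (fun i => j ∈ A i), S A (I.erase i) := by
  induction I using Finset.induction_on with
  | empty => simp [S]
  | insert a I ha ih =>
    have h1 : S A (insert a I) = (∑ j ∈ A a, X j) * S A I := by
      unfold S
      rw [Finset.prod_insert ha]
    have h2 : pderiv j (∑ l ∈ A a, (X l : MvPolynomial σ ℕ)) = if j ∈ A a then 1 else 0 := by
      rw [map_sum]
      simp only [pderiv_X, Pi.single_apply]
      rw [Finset.sum_ite_eq' (A a) j (fun _ => (1 : MvPolynomial σ ℕ))]
    rw [h1, pderiv_mul, h2, ih, Finset.mul_sum]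
    rw [Finset.filter_insert]
    have h3 : ∀ i ∈ I.filter (fun i => j ∈ A i),
        (∑ l ∈ A a, X l) * S A (I.erase i) = S A ((insert a I).erase i) := by
      intro i hi
      have hia : i ≠ a := by
        rintro rfl
        exact ha (Finset.mem_filter.mp hi).1
      rw [Finset.erase_insert_of_ne (Ne.symm hia)]
      unfold S
      rw [Finset.prod_insert]
      intro h
      exact ha (Finset.mem_of_mem_erase h)
    rw [Finset.sum_congr rfl h3]
    split_ifs with h
    · rw [Finset.sum_insert]
      · rw [Finset.erase_insert ha, one_mul]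
      · intro h'
        exact ha (Finset.mem_filter.mp h').1
    · rw [zero_mul, zero_add]

omit [Fintype σ] in
theorem P_col (A : ι → Finset σ) (I : Finset ι) (α : σ →₀ ℕ) (j : σ) (hj : α j ≠ 0) :
    α j * P A I α = ∑ i ∈ I.filter (fun i => j ∈ A i), P A (I.erase i) (α - Finsupp.single j 1) := by
  have h := coeff_pderiv (i := j) (S A I) (α - Finsupp.single j 1)
  have hα : α - Finsupp.single j 1 + Finsupp.single j 1 = α := by
    ext l
    simp only [Finsupp.coe_add, Finsupp.coe_tsub, Pi.add_apply, Pi.sub_apply, Finsupp.single_apply]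
    split_ifs with hl
    · subst hl; omega
    · omega
  rw [hα, pderiv_S, coeff_sum] at h
  unfold P
  rw [h]
  have : (α - Finsupp.single j 1 : σ →₀ ℕ) j + 1 = α j := by
    simp only [Finsupp.coe_tsub, Pi.sub_apply, Finsupp.single_eq_same]
    omega
  push_cast
  rw [← this]
  push_cast
  ring

omit [Fintype σ] in
theorem D_erase_mem (A : ι → Finset σ) (I : Finset ι) (i : ι) (hi : i ∈ I) (l : σ) (hl : l ∈ A i) :
    D A (I.erase i) l + 1 = D A I l := by
  unfold D
  rw [Finset.filter_erase, Finset.card_erase_add_one]
  exact Finset.mem_filter.mpr ⟨hi, hl⟩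

omit [Fintype σ] in
theorem D_erase_not_mem (A : ι → Finset σ) (I : Finset ι) (i : ι) (l : σ) (hl : l ∉ A i) :
    D A (I.erase i) l = D A I l := by
  unfold D
  rw [Finset.filter_erase, Finset.erase_eq_of_notMem]
  intro h
  exact hl (Finset.mem_filter.mp h).2

omit [Fintype σ] [DecidableEq ι] in
theorem P_empty (A : ι → Finset σ) (α : σ →₀ ℕ) (h : P A ∅ α ≠ 0) : α = 0 ∧ P A ∅ α = 1 := by
  unfold P S at *
  rw [Finset.prod_empty] at *
  rw [coeff_one] at *
  split_ifs at h ⊢ with h0
  · exact ⟨h0.symm, rfl⟩
  · exact absurd rfl h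

/-- If the coefficient is nonzero, the exponents have the right sum and are bounded by `D`. -/
theorem of_ne_zero (A : ι → Finset σ) : ∀ (n : ℕ) (I : Finset ι), I.card = n → ∀ α : σ →₀ ℕ,
    P A I α ≠ 0 → (∑ l, α l = n) ∧ ∀ l, α l ≤ D A I l := by
  intro n
  induction n with
  | zero =>
    intro I hI α h
    rw [Finset.card_eq_zero] at hI
    subst hI
    obtain ⟨h0, _⟩ := P_empty A α h
    subst h0
    simp
  | succ n ih =>
    intro I hI α h
    obtain ⟨i, hi⟩ : I.Nonempty := by
      rw [← Finset.card_pos]; omega
    rw [P_row A I α i hi] at h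
    obtain ⟨j, hj, hne⟩ := Finset.exists_ne_zero_of_sum_ne_zero h
    split_ifs at hne with hα
    · obtain ⟨h1, h2⟩ := ih (I.erase i) (by rw [Finset.card_erase_of_mem hi]; omega) _ hne
      have hsub : ∀ l, (α - Finsupp.single j 1 : σ →₀ ℕ) l = α l - (if j = l then 1 else 0) := by
        intro l
        simp only [Finsupp.coe_tsub, Pi.sub_apply, Finsupp.single_apply]
      constructor
      · have h3 : ∑ l, α l = ∑ l, ((α - Finsupp.single j 1 : σ →₀ ℕ) l + (if j = l then 1 else 0)) := by
          apply Finset.sum_congr rfl
          intro l _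
          rw [hsub]
          split_ifs with hl
          · subst hl; omega
          · omega
        rw [h3, Finset.sum_add_distrib, h1]
        simp
      · intro l
        have h4 := h2 l
        rw [hsub] at h4
        by_cases hl : l ∈ A i
        · have := D_erase_mem A I i hi l hl
          split_ifs at h4 <;> omega
        · rw [D_erase_not_mem A I i l hl] at h4
          have : j ≠ l := by
            rintro rfl
            exact hl hj
          rw [if_neg this] at h4
          omega
    · exact absurd rfl hne

/-- Jensen for `x log x`. -/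
theorem jensen {κ : Type} (s : Finset κ) (hs : 0 < s.card) (x : κ → ℝ) (hx : ∀ i ∈ s, 0 ≤ x i) :
    (∑ i ∈ s, x i) * Real.log ((∑ i ∈ s, x i) / s.card) ≤ ∑ i ∈ s, x i * Real.log (x i) := by
  have hc : (0 : ℝ) < s.card := by exact_mod_cast hs
  have h := Real.convexOn_mul_log.map_sum_le (t := s) (w := fun _ => (1 : ℝ) / s.card) (p := x)
    (fun i _ => by positivity) (by rw [Finset.sum_const, nsmul_eq_mul]; field_simp)
    (fun i hi => hx i hi)
  simp only [smul_eq_mul] at h
  rw [← Finset.mul_sum, ← Finset.mul_sum] at h
  have h2 : (1 : ℝ) / s.card * ∑ i ∈ s, x i = (∑ i ∈ s, x i) / s.card := by ring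
  rw [h2] at h
  have h3 := mul_le_mul_of_nonneg_left h hc.le
  have h4 : (s.card : ℝ) * ((∑ i ∈ s, x i) / s.card * Real.log ((∑ i ∈ s, x i) / s.card)) =
      (∑ i ∈ s, x i) * Real.log ((∑ i ∈ s, x i) / s.card) := by field_simp
  have h5 : (s.card : ℝ) * (1 / s.card * ∑ i ∈ s, x i * Real.log (x i)) =
      ∑ i ∈ s, x i * Real.log (x i) := by field_simp
  rw [h4, h5] at h3
  exact h3

/-- The Bregman-type bound. -/
theorem main (A : ι → Finset σ) : ∀ (n : ℕ) (I : Finset ι), I.card = n → ∀ α : σ →₀ ℕ,
    P A I α ≠ 0 → Real.log (P A I α : ℝ) ≤ ∑ l, ((α l : ℝ) * L (D A I l) - lf (α l)) := by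
  intro n
  induction n with
  | zero =>
    intro I hI α h
    rw [Finset.card_eq_zero] at hI
    subst hI
    obtain ⟨h0, h1⟩ := P_empty A α h
    rw [h1]
    subst h0
    simp [lf_zero]
  | succ n ih =>
    intro I hI α h
    obtain ⟨hsum, hle⟩ := of_ne_zero A (n + 1) I hI α h
    set p : ℝ := (P A I α : ℝ) with hp
    have hppos : 0 < p := by
      rw [hp]
      exact_mod_cast Nat.pos_of_ne_zero h
    -- the weights
    set w : ι → σ → ℝ := fun i j =>
      if j ∈ A i ∧ α j ≠ 0 then (P A (I.erase i) (α - Finsupp.single j 1) : ℝ) else 0 with hw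
    have hw0 : ∀ i j, 0 ≤ w i j := by
      intro i j
      simp only [hw]
      split_ifs
      · positivity
      · exact le_refl _
    have hrow : ∀ i ∈ I, ∑ j, w i j = p := by
      intro i hi
      rw [hp, P_row A I α i hi]
      push_cast
      rw [← Finset.sum_filter_add_sum_filter_not Finset.univ (fun j => j ∈ A i)]
      have h1 : ∑ j ∈ Finset.univ.filter (fun j => ¬ j ∈ A i), w i j = 0 := by
        apply Finset.sum_eq_zero
        intro j hj
        simp only [Finset.mem_filter, Finset.mem_univ, true_and] at hj
        simp only [hw, hj, false_and, if_false]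
      rw [h1, add_zero]
      have h2 : Finset.univ.filter (fun j => j ∈ A i) = A i := by ext; simp
      rw [h2]
      apply Finset.sum_congr rfl
      intro j hj
      simp only [hw, hj, true_and]
    have hcol : ∀ j, ∑ i ∈ I, w i j = α j * p := by
      intro j
      by_cases hj : α j = 0
      · rw [hj]
        simp [hw, hj]
      · have h1 := P_col A I α j hj
        have h2 : ((α j * P A I α : ℕ) : ℝ) =
            ((∑ i ∈ I.filter (fun i => j ∈ A i), P A (I.erase i) (α - Finsupp.single j 1) : ℕ) : ℝ) := by
          rw [h1]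
        push_cast at h2
        rw [hp, h2, Finset.sum_filter]
        apply Finset.sum_congr rfl
        intro i _
        simp only [hw, ne_eq, hj, not_false_eq_true, and_true]
    -- Jensen for every column
    have hjen : ∀ j, (α j : ℝ) * (p * Real.log p) ≤
        (α j : ℝ) * p * (Real.log (D A I j) - Real.log (α j)) + ∑ i ∈ I, w i j * Real.log (w i j) := by
      intro j
      by_cases hj : α j = 0
      · have : ∑ i ∈ I, w i j * Real.log (w i j) = 0 := by
          apply Finset.sum_eq_zero
          intro i _
          simp [hw, hj]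
        rw [this, hj]
        simp
      · have hjpos : 0 < α j := Nat.pos_of_ne_zero hj
        have hDpos : 0 < D A I j := lt_of_lt_of_le hjpos (hle j)
        have h1 := jensen (I.filter (fun i => j ∈ A i)) hDpos (fun i => w i j) (fun i _ => hw0 i j)
        have h2 : ∑ i ∈ I.filter (fun i => j ∈ A i), w i j = α j * p := by
          rw [← hcol j, Finset.sum_filter]
          apply Finset.sum_congr rfl
          intro i _
          split_ifs with hc
          · rfl
          · simp [hw, hc]
        have h3 : ∑ i ∈ I.filter (fun i => j ∈ A i), w i j * Real.log (w i j) =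
            ∑ i ∈ I, w i j * Real.log (w i j) := by
          rw [Finset.sum_filter]
          apply Finset.sum_congr rfl
          intro i _
          split_ifs with hc
          · rfl
          · simp [hw, hc]
        rw [h2, h3] at h1
        have hjR : (0 : ℝ) < α j := by exact_mod_cast hjpos
        have hDR : (0 : ℝ) < (D A I j : ℝ) := by exact_mod_cast hDpos
        have h4 : Real.log ((α j : ℝ) * p / ((I.filter (fun i => j ∈ A i)).card : ℝ)) =
            Real.log (α j) + Real.log p - Real.log (D A I j) := by
          rw [Real.log_div (by positivity) (by exact_mod_cast hDpos.ne'), Real.log_mul hjR.ne' hppos.ne']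
          rfl
        rw [h4] at h1
        linarith
    -- inductive hypothesis
    set C : ℝ := ∑ l, lf (α l) with hC
    set H : ι → ℝ := fun i => ∑ l, (α l : ℝ) * L (D A (I.erase i) l) with hH
    have hIH : ∀ i ∈ I, ∀ j, w i j * Real.log (w i j) ≤
        w i j * (H i - L (D A I j - 1) - C + Real.log (α j)) := by
      intro i hi j
      by_cases hc : j ∈ A i ∧ α j ≠ 0
      · have hwij : w i j = (P A (I.erase i) (α - Finsupp.single j 1) : ℝ) := by
          simp only [hw, if_pos hc]
        by_cases hz : P A (I.erase i) (α - Finsupp.single j 1) = 0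
        · rw [hwij, hz]; simp
        · have h1 := ih (I.erase i) (by rw [Finset.card_erase_of_mem hi]; omega) _ hz
          rw [hwij]
          apply mul_le_mul_of_nonneg_left _ (by positivity)
          refine h1.trans (le_of_eq ?_)
          -- compute the sum
          have hDj : D A (I.erase i) j = D A I j - 1 := by
            have := D_erase_mem A I i hi j hc.1
            omega
          have hterm : ∀ l, (((α - Finsupp.single j 1 : σ →₀ ℕ) l : ℕ) : ℝ) * L (D A (I.erase i) l) -
              lf ((α - Finsupp.single j 1 : σ →₀ ℕ) l) =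
              ((α l : ℝ) * L (D A (I.erase i) l) - lf (α l)) +
              (if j = l then (- L (D A I j - 1) + Real.log (α j)) else 0) := by
            intro l
            simp only [Finsupp.coe_tsub, Pi.sub_apply, Finsupp.single_apply]
            split_ifs with hl
            · subst hl
              obtain ⟨m, hm⟩ : ∃ m, α j = m + 1 := ⟨α j - 1, by have := hc.2; omega⟩
              rw [hm, hDj, Nat.add_sub_cancel, lf_succ]
              push_cast
              ring
            · simp
          rw [Finset.sum_congr rfl (fun l _ => hterm l), Finset.sum_add_distrib,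
            Finset.sum_sub_distrib, Finset.sum_ite_eq Finset.univ j
              (fun _ => - L (D A I j - 1) + Real.log (α j))]
          simp only [Finset.mem_univ, if_true]
          simp only [hH, hC]
          ring
      · have hwij : w i j = 0 := by
          simp only [hw, if_neg hc]
        rw [hwij]; simp
    -- sum of everything
    have hsumR : (∑ l, (α l : ℝ)) = (n : ℝ) + 1 := by
      have : ((∑ l, α l : ℕ) : ℝ) = ((n + 1 : ℕ) : ℝ) := by rw [hsum]
      push_cast at this
      exact this
    have hcardI : (I.card : ℝ) = (n : ℝ) + 1 := by rw [hI]; push_cast; ring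
    have hHsum : ∀ l, ∑ i ∈ I, L (D A (I.erase i) l) =
        ((n : ℝ) + 1 - D A I l) * L (D A I l) + (D A I l : ℝ) * L (D A I l - 1) := by
      intro l
      rw [← Finset.sum_filter_add_sum_filter_not I (fun i => l ∈ A i)]
      have h1 : ∑ i ∈ I.filter (fun i => l ∈ A i), L (D A (I.erase i) l) =
          (D A I l : ℝ) * L (D A I l - 1) := by
        have : ∀ i ∈ I.filter (fun i => l ∈ A i), L (D A (I.erase i) l) = L (D A I l - 1) := by
          intro i hi
          rw [Finset.mem_filter] at hi
          have := D_erase_mem A I i hi.1 l hi.2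
          congr 1
          omega
        rw [Finset.sum_congr rfl this, Finset.sum_const, nsmul_eq_mul]
        rfl
      have h2 : ∑ i ∈ I.filter (fun i => ¬ l ∈ A i), L (D A (I.erase i) l) =
          ((n : ℝ) + 1 - D A I l) * L (D A I l) := by
        have : ∀ i ∈ I.filter (fun i => ¬ l ∈ A i), L (D A (I.erase i) l) = L (D A I l) := by
          intro i hi
          rw [Finset.mem_filter] at hi
          rw [D_erase_not_mem A I i l hi.2]
        rw [Finset.sum_congr rfl this, Finset.sum_const, nsmul_eq_mul]
        congr 1
        have h3 := Finset.card_filter_add_card_filter_not (s := I) (fun i => l ∈ A i)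
        have h4 : ((I.filter (fun i => l ∈ A i)).card : ℝ) + ((I.filter (fun i => ¬ l ∈ A i)).card : ℝ) =
            (n : ℝ) + 1 := by
          rw [← hcardI, ← h3]
          push_cast
          ring
        unfold D
        linarith
      rw [h1, h2]
      ring
    have hHtot : ∑ i ∈ I, H i = ∑ l, (α l : ℝ) * (((n : ℝ) + 1 - D A I l) * L (D A I l) +
        (D A I l : ℝ) * L (D A I l - 1)) := by
      simp only [hH]
      rw [Finset.sum_comm]
      apply Finset.sum_congr rfl
      intro l _
      rw [← Finset.mul_sum, hHsum]
    have hbig : ∑ j, ∑ i ∈ I, w i j * Real.log (w i j) ≤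
        p * ∑ i ∈ I, H i - ∑ j, (α j * p) * L (D A I j - 1) - ((n : ℝ) + 1) * p * C +
          ∑ j, (α j * p) * Real.log (α j) := by
      have h1 : ∑ j, ∑ i ∈ I, w i j * Real.log (w i j) ≤
          ∑ j, ∑ i ∈ I, w i j * (H i - L (D A I j - 1) - C + Real.log (α j)) := by
        apply Finset.sum_le_sum
        intro j _
        apply Finset.sum_le_sum
        intro i hi
        exact hIH i hi j
      refine h1.trans (le_of_eq ?_)
      have h2 : ∀ j, ∑ i ∈ I, w i j * (H i - L (D A I j - 1) - C + Real.log (α j)) =
          ∑ i ∈ I, w i j * H i - (α j * p) * L (D A I j - 1) - (α j * p) * C +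
            (α j * p) * Real.log (α j) := by
        intro j
        rw [← hcol j]
        simp only [mul_add, mul_sub, Finset.sum_add_distrib, Finset.sum_sub_distrib, Finset.sum_mul]
      rw [Finset.sum_congr rfl (fun j _ => h2 j), Finset.sum_add_distrib, Finset.sum_sub_distrib,
        Finset.sum_sub_distrib]
      have h3 : ∑ j, ∑ i ∈ I, w i j * H i = p * ∑ i ∈ I, H i := by
        rw [Finset.sum_comm, Finset.mul_sum]
        apply Finset.sum_congr rfl
        intro i hi
        rw [← Finset.sum_mul, hrow i hi]
      have h4 : ∑ j, (α j : ℝ) * p * C = ((n : ℝ) + 1) * p * C := by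
        rw [← Finset.sum_mul, ← Finset.sum_mul, hsumR]
      rw [h3, h4]
    have hjs : ((n : ℝ) + 1) * (p * Real.log p) ≤
        ∑ j, (α j : ℝ) * p * (Real.log (D A I j) - Real.log (α j)) +
          ∑ j, ∑ i ∈ I, w i j * Real.log (w i j) := by
      rw [← hsumR, Finset.sum_mul, ← Finset.sum_add_distrib]
      apply Finset.sum_le_sum
      intro j _
      exact hjen j
    -- final identity
    have hfin : ∑ j, (α j : ℝ) * p * (Real.log (D A I j) - Real.log (α j)) +
        (p * ∑ i ∈ I, H i - ∑ j, (α j * p) * L (D A I j - 1) - ((n : ℝ) + 1) * p * C +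
          ∑ j, (α j * p) * Real.log (α j)) =
        (((n : ℝ) + 1) * p) * ∑ l, ((α l : ℝ) * L (D A I l) - lf (α l)) := by
      rw [hHtot, hC, Finset.mul_sum, Finset.mul_sum, Finset.mul_sum, ← Finset.sum_sub_distrib,
        ← Finset.sum_sub_distrib, ← Finset.sum_add_distrib, ← Finset.sum_add_distrib]
      apply Finset.sum_congr rfl
      intro l _
      by_cases hl : α l = 0
      · rw [hl]; simp [lf_zero]
      · have hDpos : 0 < D A I l := lt_of_lt_of_le (Nat.pos_of_ne_zero hl) (hle l)
        obtain ⟨m, hm⟩ : ∃ m, D A I l = m + 1 := ⟨D A I l - 1, by omega⟩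
        rw [hm, Nat.add_sub_cancel]
        have h1 : ((m + 1 : ℕ) : ℝ) * L (m + 1) = lf (m + 1) := L_mul (m + 1)
        have h2 : (m : ℝ) * L m = lf m := L_mul m
        rw [lf_succ] at h1
        push_cast at h1 ⊢
        have h3 : Real.log ((m : ℝ) + 1) = ((m : ℝ) + 1) * L (m + 1) - m * L m := by
          rw [h1, h2]; ring
        rw [h3]
        ring
    have hall : ((n : ℝ) + 1) * (p * Real.log p) ≤
        (((n : ℝ) + 1) * p) * ∑ l, ((α l : ℝ) * L (D A I l) - lf (α l)) := by
      rw [← hfin]
      linarith
    have hnp : 0 < ((n : ℝ) + 1) * p := by positivity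
    have h9 : (((n : ℝ) + 1) * p) * Real.log p ≤
        (((n : ℝ) + 1) * p) * ∑ l, ((α l : ℝ) * L (D A I l) - lf (α l)) := by linarith
    exact le_of_mul_le_mul_left h9 hnp

end Pool.Agent.Hhelper52.BregmanMult
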