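import Mathlib

set_option autoImplicit false

/-! Chip-firing on finite loopless multigraphs: divisors, rank at least one, gonality, uniform subdivision. -/

namespace Pool.Agent.Hhelper52.Gon

/-- A multigraph without loops, with vertex type `V` and edge type `E` (parallel edges are allowed: two
elements of `E` may have the same ends). Each edge is given an arbitrary orientation. -/
structure MGraph (V E : Type) where
  src : E → V
  tgt : E → V
  loopless : ∀ e, src e ≠ tgt e

namespace MGraph

variable {V E : Type}

/-- The multigraph is connected. -/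
def Connected (G : MGraph V E) : Prop :=
  (SimpleGraph.fromRel (fun u v => ∃ e, G.src e = u ∧ G.tgt e = v)).Connected

open Classical in
/-- The change of a divisor at the vertex `w` when every vertex `v` is fired `f v` times: along every
edge joining `w` to a vertex `u`, the vertex `w` gains `f u` chips and loses `f w` chips. -/
noncomputable def lap [Fintype E] (G : MGraph V E) (f : V → ℤ) (w : V) : ℤ :=
  ∑ e, ((if G.src e = w then f (G.tgt e) - f w else 0) +
    (if G.tgt e = w then f (G.src e) - f w else 0))

/-- Two divisors are equivalent if one is obtained from the other by firings. -/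
def Equivalent [Fintype E] (G : MGraph V E) (D D' : V → ℤ) : Prop :=
  ∃ f : V → ℤ, ∀ w, D' w = D w + G.lap f w

open Classical in
/-- `D` has rank at least one: for every vertex `v`, the divisor `D - 1_v` is equivalent to an
effective divisor. -/
def RankGeOne [Fintype E] (G : MGraph V E) (D : V → ℤ) : Prop :=
  ∀ v : V, ∃ D' : V → ℤ, (∀ w, 0 ≤ D' w) ∧ G.Equivalent (fun w => D w - if w = v then 1 else 0) D'

/-- The divisorial gonality: the minimum degree of an effective divisor of rank at least one. -/
noncomputable def gon [Fintype V] [Fintype E] (G : MGraph V E) : ℕ :=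
  sInf {d : ℕ | ∃ D : V → ℤ, (∀ v, 0 ≤ D v) ∧ ∑ v, D v = d ∧ G.RankGeOne D}

/-- The `i`-th vertex (`0 ≤ i ≤ k`) on the path of `k` edges that replaces the edge `e`. -/
def node (G : MGraph V E) (k : ℕ) (e : E) (i : ℕ) : V ⊕ (E × Fin (k - 1)) :=
  if i = 0 then Sum.inl (G.src e)
  else if h : i - 1 < k - 1 then Sum.inr (e, ⟨i - 1, h⟩) else Sum.inl (G.tgt e)

theorem node_ne (G : MGraph V E) (k : ℕ) (e : E) (i : ℕ) (hi : i < k) :
    G.node k e i ≠ G.node k e (i + 1) := by
  unfold node
  rcases Nat.eq_zero_or_pos i with h | h
  · subst h
    simp only [if_true, Nat.add_sub_cancel, zero_add, one_ne_zero, if_false]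
    split_ifs with h1
    · simp
    · intro hc
      exact G.loopless e (Sum.inl.inj hc)
  · rw [if_neg (by omega), if_neg (by omega), dif_pos (by omega)]
    split_ifs with h1
    · intro hc
      have := Sum.inr.inj hc
      simp only [Prod.mk.injEq, Fin.mk.injEq, true_and] at this
      omega
    · simp

/-- `G.subdiv k` is the graph `G^(k)`: every edge `e` is replaced by a path of `k` edges, with the
`k - 1` new vertices `Sum.inr (e, j)`, `j : Fin (k - 1)`. -/
def subdiv (G : MGraph V E) (k : ℕ) : MGraph (V ⊕ (E × Fin (k - 1))) (E × Fin k) where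
  src p := G.node k p.1 p.2
  tgt p := G.node k p.1 (p.2 + 1)
  loopless p := G.node_ne k p.1 p.2 p.2.2

end MGraph

end Pool.Agent.Hhelper52.Gon
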