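import Mathlib
import Pool.Agent.Hhelper52.GonDefs

set_option autoImplicit false

/-! Basic lemmas on chip-firing on multigraphs and on uniform subdivisions. -/

namespace Pool.Agent.Hhelper52.Gon

namespace MGraph

variable {V E : Type}

section node

variable (G : MGraph V E) (k : ℕ)

theorem node_zero (e : E) : G.node k e 0 = Sum.inl (G.src e) := by
  unfold node; simp

theorem node_last (hk : 1 ≤ k) (e : E) : G.node k e k = Sum.inl (G.tgt e) := by
  unfold node
  rw [if_neg (by omega), dif_neg (by omega)]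

theorem node_mid (e : E) (j : Fin (k - 1)) : G.node k e (j + 1) = Sum.inr (e, j) := by
  unfold node
  rw [if_neg (by omega), dif_pos (by have := j.2; omega)]
  simp

theorem node_eq_inr (e e' : E) (i : ℕ) (hi : i ≤ k) (j : Fin (k - 1)) :
    G.node k e' i = Sum.inr (e, j) ↔ e' = e ∧ i = j + 1 := by
  unfold node
  have hj := j.2
  split_ifs with h1 h2
  · simp; omega
  · simp only [Sum.inr.injEq, Prod.mk.injEq]
    constructor
    · rintro ⟨h3, h4⟩
      refine ⟨h3, ?_⟩
      rw [← h4]
      simp only
      omega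
    · rintro ⟨h3, h4⟩
      refine ⟨h3, ?_⟩
      ext
      simp only
      omega
  · constructor
    · intro h; simp at h
    · rintro ⟨_, h4⟩; omega

theorem node_eq_inl_lt (e : E) (i : ℕ) (hi : i < k) (v : V) :
    G.node k e i = Sum.inl v ↔ i = 0 ∧ G.src e = v := by
  unfold node
  split_ifs with h1 h2
  · simp [h1]
  · constructor
    · intro h; simp at h
    · rintro ⟨h3, _⟩; omega
  · omega

theorem node_eq_inl_pos (e : E) (i : ℕ) (hi : 0 < i) (hik : i ≤ k) (v : V) :
    G.node k e i = Sum.inl v ↔ i = k ∧ G.tgt e = v := by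
  unfold node
  split_ifs with h1 h2
  · omega
  · constructor
    · intro h; simp at h
    · rintro ⟨h3, _⟩; omega
  · constructor
    · intro h
      exact ⟨by omega, Sum.inl.inj h⟩
    · rintro ⟨_, h⟩
      rw [h]

end node

variable [Fintype E]

open Classical in
theorem lap_subdiv_inr (G : MGraph V E) (k : ℕ) (f : V ⊕ (E × Fin (k - 1)) → ℤ) (e : E)
    (j : Fin (k - 1)) :
    (G.subdiv k).lap f (Sum.inr (e, j)) =
      (f (G.node k e (j + 2)) - f (G.node k e (j + 1))) +
        (f (G.node k e j) - f (G.node k e (j + 1))) := by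
  unfold lap
  have hj := j.2
  rw [Finset.sum_add_distrib]
  congr 1
  · rw [Finset.sum_eq_single (e, (⟨j + 1, by omega⟩ : Fin k))]
    · have h1 : (G.subdiv k).src (e, (⟨j + 1, by omega⟩ : Fin k)) = Sum.inr (e, j) := by
        change G.node k e (j + 1) = _
        rw [node_mid]
      rw [if_pos h1, node_mid]
      rfl
    · rintro ⟨e', i⟩ _ hne
      rw [if_neg]
      intro h
      change G.node k e' i = _ at h
      rw [node_eq_inr G k e e' i (by have := i.2; omega)] at h
      apply hne
      obtain ⟨h1, h2⟩ := h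
      subst h1
      congr 1
      ext
      exact h2
    · intro h; exact absurd (Finset.mem_univ _) h
  · rw [Finset.sum_eq_single (e, (⟨j, by omega⟩ : Fin k))]
    · have h1 : (G.subdiv k).tgt (e, (⟨j, by omega⟩ : Fin k)) = Sum.inr (e, j) := by
        change G.node k e (j + 1) = _
        rw [node_mid]
      rw [if_pos h1, node_mid]
      rfl
    · rintro ⟨e', i⟩ _ hne
      rw [if_neg]
      intro h
      change G.node k e' (i + 1) = _ at h
      rw [node_eq_inr G k e e' (i + 1) (by have := i.2; omega)] at h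
      apply hne
      obtain ⟨h1, h2⟩ := h
      subst h1
      congr 1
      ext
      simp only
      omega
    · intro h; exact absurd (Finset.mem_univ _) h

open Classical in
theorem lap_subdiv_inl (G : MGraph V E) (k : ℕ) (hk : 1 ≤ k) (f : V ⊕ (E × Fin (k - 1)) → ℤ) (v : V) :
    (G.subdiv k).lap f (Sum.inl v) =
      ∑ e, ((if G.src e = v then f (G.node k e 1) - f (Sum.inl v) else 0) +
        (if G.tgt e = v then f (G.node k e (k - 1)) - f (Sum.inl v) else 0)) := by
  unfold lap
  rw [Fintype.sum_prod_type]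
  apply Finset.sum_congr rfl
  intro e _
  rw [Finset.sum_add_distrib]
  congr 1
  · rw [Finset.sum_eq_single (⟨0, by omega⟩ : Fin k)]
    · have h1 : (G.subdiv k).src (e, (⟨0, by omega⟩ : Fin k)) = Sum.inl (G.src e) := G.node_zero k e
      rw [h1]
      by_cases h : G.src e = v
      · rw [if_pos (by rw [h]), if_pos h]
        rfl
      · rw [if_neg (fun hc => h (Sum.inl.inj hc)), if_neg h]
    · intro i _ hne
      rw [if_neg]
      intro h
      change G.node k e i = _ at h
      rw [node_eq_inl_lt G k e i i.2] at h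
      apply hne
      ext
      exact h.1
    · intro h; exact absurd (Finset.mem_univ _) h
  · rw [Finset.sum_eq_single (⟨k - 1, by omega⟩ : Fin k)]
    · have h1 : (G.subdiv k).tgt (e, (⟨k - 1, by omega⟩ : Fin k)) = Sum.inl (G.tgt e) := by
        change G.node k e (k - 1 + 1) = _
        rw [Nat.sub_add_cancel hk, node_last G k hk]
      rw [h1]
      by_cases h : G.tgt e = v
      · rw [if_pos (by rw [h]), if_pos h]
        rfl
      · rw [if_neg (fun hc => h (Sum.inl.inj hc)), if_neg h]
    · intro i _ hne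
      rw [if_neg]
      intro h
      change G.node k e (i + 1) = _ at h
      rw [node_eq_inl_pos G k e (i + 1) (by omega) (by have := i.2; omega)] at h
      apply hne
      ext
      simp only
      omega
    · intro h; exact absurd (Finset.mem_univ _) h

theorem rank_elim (G : MGraph V E) (D : V → ℤ) (h : G.RankGeOne D) (v : V) :
    ∃ f : V → ℤ, (∀ w, w ≠ v → 0 ≤ D w + G.lap f w) ∧ 1 ≤ D v + G.lap f v := by
  obtain ⟨D', hD', f, hf⟩ := h v
  refine ⟨f, ?_, ?_⟩
  · intro w hw
    have h1 := hf w
    have h2 := hD' w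
    simp only [if_neg hw] at h1
    linarith
  · have h1 := hf v
    have h2 := hD' v
    simp only [if_true] at h1
    linarith

theorem rank_intro (G : MGraph V E) (D : V → ℤ)
    (h : ∀ v, ∃ f : V → ℤ, (∀ w, w ≠ v → 0 ≤ D w + G.lap f w) ∧ 1 ≤ D v + G.lap f v) :
    G.RankGeOne D := by
  classical
  intro v
  obtain ⟨f, h1, h2⟩ := h v
  refine ⟨_, ?_, f, fun w => rfl⟩
  intro w
  by_cases hw : w = v
  · subst hw
    simp only [if_true]
    linarith
  · simp only [if_neg hw]
    have := h1 w hw
    linarith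

theorem gon_set_nonempty [Fintype V] (G : MGraph V E) :
    {d : ℕ | ∃ D : V → ℤ, (∀ v, 0 ≤ D v) ∧ ∑ v, D v = d ∧ G.RankGeOne D}.Nonempty := by
  classical
  refine ⟨Fintype.card V, fun _ => 1, fun _ => by norm_num, by simp, ?_⟩
  intro v
  refine ⟨fun w => 1 - if w = v then 1 else 0, ?_, 0, ?_⟩
  · intro w; simp only; split_ifs <;> norm_num
  · intro w
    simp [lap]

theorem gon_spec [Fintype V] (G : MGraph V E) :
    ∃ D : V → ℤ, (∀ v, 0 ≤ D v) ∧ ∑ v, D v = G.gon ∧ G.RankGeOne D :=
  Nat.sInf_mem G.gon_set_nonempty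

theorem gon_le [Fintype V] (G : MGraph V E) (d : ℕ) (D : V → ℤ) (h0 : ∀ v, 0 ≤ D v)
    (hd : ∑ v, D v = d) (hr : G.RankGeOne D) : G.gon ≤ d :=
  Nat.sInf_le ⟨D, h0, hd, hr⟩

end MGraph

end Pool.Agent.Hhelper52.Gon
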