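import Mathlib
import Pool.Agent.Hhelper52.GonDefs
import Pool.Agent.Hhelper52.GonBasic

set_option autoImplicit false

/-! Blow-up of a weighted graph: every vertex becomes a blob of terminals joined by many parallel edges,
every edge of length `l` becomes a path of `l` edges between two terminals. -/

namespace Pool.Agent.Hhelper52.Gon

open MGraph

namespace MGraph

variable {V E : Type} [Fintype V] [Fintype E]

theorem pairing (G : MGraph V E) (f h : V → ℤ) :
    ∑ w, G.lap f w * h w = ∑ e, (f (G.tgt e) - f (G.src e)) * (h (G.src e) - h (G.tgt e)) := by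
  classical
  unfold lap
  simp only [Finset.sum_mul]
  rw [Finset.sum_comm]
  apply Finset.sum_congr rfl
  intro e _
  have h1 : ∀ w, ((if G.src e = w then f (G.tgt e) - f w else 0) +
      (if G.tgt e = w then f (G.src e) - f w else 0)) * h w =
      (if G.src e = w then (f (G.tgt e) - f (G.src e)) * h (G.src e) else 0) +
      (if G.tgt e = w then (f (G.src e) - f (G.tgt e)) * h (G.tgt e) else 0) := by
    intro w
    by_cases h1 : G.src e = w
    · subst h1
      by_cases h2 : G.tgt e = G.src e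
      · exact absurd h2.symm (G.loopless e)
      · simp [h2]
    · by_cases h2 : G.tgt e = w
      · subst h2
        simp [h1]
      · simp [h1, h2]
  rw [Finset.sum_congr rfl (fun w _ => h1 w), Finset.sum_add_distrib,
    Finset.sum_ite_eq Finset.univ (G.src e), Finset.sum_ite_eq Finset.univ (G.tgt e)]
  simp only [Finset.mem_univ, if_true]
  ring

/-- More than `deg D` parallel edges between `u` and `v` force equal firing numbers. -/
theorem heavy_aux (G : MGraph V E) (D f : V → ℤ) (h0 : ∀ w, 0 ≤ D w) (h1 : ∀ w, 0 ≤ D w + G.lap f w)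
    (M : ℕ) (hM : ∑ w, D w < M) (ι : Fin M → E) (hι : Function.Injective ι) (u v : V)
    (huv : ∀ i, (G.src (ι i) = u ∧ G.tgt (ι i) = v) ∨ (G.src (ι i) = v ∧ G.tgt (ι i) = u)) :
    f u ≤ f v := by
  classical
  by_contra hlt
  push Not at hlt
  set h : V → ℤ := fun w => if f u ≤ f w then 1 else 0 with hh
  have hp := G.pairing f h
  have hterm : ∀ e, (f (G.tgt e) - f (G.src e)) * (h (G.src e) - h (G.tgt e)) ≤ 0 := by
    intro e
    simp only [hh]
    split_ifs with h2 h3 h3
    · simp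
    · push Not at h3; nlinarith
    · push Not at h2; nlinarith
    · simp
  have hterm2 : ∀ i, (f (G.tgt (ι i)) - f (G.src (ι i))) * (h (G.src (ι i)) - h (G.tgt (ι i))) ≤ -1 := by
    intro i
    have hu : h u = 1 := by simp [hh]
    have hv : h v = 0 := by simp only [hh]; rw [if_neg]; push Not; exact hlt
    rcases huv i with ⟨h2, h3⟩ | ⟨h2, h3⟩
    · rw [h2, h3, hu, hv]; linarith
    · rw [h2, h3, hu, hv]; linarith
  have hsum : ∑ e, (f (G.tgt e) - f (G.src e)) * (h (G.src e) - h (G.tgt e)) ≤ -(M : ℤ) := by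
    have h2 : ∑ e, (f (G.tgt e) - f (G.src e)) * (h (G.src e) - h (G.tgt e)) ≤
        ∑ e ∈ Finset.univ.map ⟨ι, hι⟩, (f (G.tgt e) - f (G.src e)) * (h (G.src e) - h (G.tgt e)) := by
      rw [← Finset.sum_sdiff (Finset.subset_univ (Finset.univ.map ⟨ι, hι⟩))]
      have : ∑ e ∈ Finset.univ \ Finset.univ.map ⟨ι, hι⟩,
          (f (G.tgt e) - f (G.src e)) * (h (G.src e) - h (G.tgt e)) ≤ 0 :=
        Finset.sum_nonpos (fun e _ => hterm e)
      linarith
    refine h2.trans ?_
    rw [Finset.sum_map]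
    have h3 : ∑ i : Fin M, (f (G.tgt (ι i)) - f (G.src (ι i))) * (h (G.src (ι i)) - h (G.tgt (ι i))) ≤
        ∑ _i : Fin M, (-1 : ℤ) := Finset.sum_le_sum (fun i _ => hterm2 i)
    refine h3.trans ?_
    simp
  have hge : -(∑ w, D w) ≤ ∑ w, G.lap f w * h w := by
    rw [← Finset.sum_neg_distrib]
    apply Finset.sum_le_sum
    intro w _
    have h2 := h0 w
    have h3 := h1 w
    simp only [hh]
    split_ifs
    · linarith
    · linarith
  linarith

theorem heavy (G : MGraph V E) (D f : V → ℤ) (h0 : ∀ w, 0 ≤ D w) (h1 : ∀ w, 0 ≤ D w + G.lap f w)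
    (M : ℕ) (hM : ∑ w, D w < M) (ι : Fin M → E) (hι : Function.Injective ι) (u v : V)
    (huv : ∀ i, G.src (ι i) = u ∧ G.tgt (ι i) = v) :
    f u = f v := by
  apply le_antisymm
  · exact G.heavy_aux D f h0 h1 M hM ι hι u v (fun i => Or.inl (huv i))
  · exact G.heavy_aux D f h0 h1 M hM ι hι v u (fun i => Or.inr (huv i))

end MGraph

/-- A finite graph with positive integer edge lengths. -/
structure HG (W F : Type) where
  s : F → W
  t : F → W
  l : F → ℕ
  lpos : ∀ e, 0 < l e
  hst : ∀ e, s e ≠ t e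

namespace HG

variable {W F : Type} (H : HG W F)

/-- the vertex at an end of an edge. -/
def at' (ε : F × Bool) : W := if ε.2 then H.t ε.1 else H.s ε.1

/-- vertices of the blow-up. -/
abbrev BV := Σ e : F, Fin (H.l e + 1)

/-- terminal of an end. -/
def term (ε : F × Bool) : H.BV := ⟨ε.1, if ε.2 then Fin.last _ else 0⟩

/-- pairs of ends of distinct edges at the same vertex. -/
abbrev Heavy := {p : (F × Bool) × (F × Bool) // p.1.1 ≠ p.2.1 ∧ H.at' p.1 = H.at' p.2}

/-- edges of the blow-up. -/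
abbrev BE (M : ℕ) := (Σ e : F, Fin (H.l e)) ⊕ (H.Heavy × Fin M)

/-- The blow-up. -/
def blow (M : ℕ) : MGraph H.BV (H.BE M) where
  src x := match x with
    | Sum.inl p => ⟨p.1, p.2.castSucc⟩
    | Sum.inr p => H.term p.1.1.1
  tgt x := match x with
    | Sum.inl p => ⟨p.1, p.2.succ⟩
    | Sum.inr p => H.term p.1.1.2
  loopless x := by
    rcases x with ⟨e, q⟩ | ⟨⟨p, hp⟩, m⟩
    · intro h
      simp only [Sigma.mk.injEq, heq_eq_eq, true_and] at h
      exact absurd h (Fin.castSucc_lt_succ).ne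
    · intro h
      apply hp.1
      have := congrArg Sigma.fst h
      exact this

variable [Fintype F] [DecidableEq F] [DecidableEq W]

section lower

variable (M : ℕ)

/-- the path-constancy of the number of chips and the change of the first moment. -/
theorem moment (f : H.BV → ℤ) (hf : ∀ ε ε' : F × Bool, H.at' ε = H.at' ε' → f (H.term ε) = f (H.term ε'))
    (e : F) (c : ℤ) (a : ℤ) :
    ∑ q : Fin (H.l e + 1), (H.blow M).lap f ⟨e, q⟩ * (c + a * (q : ℕ)) =
      - a * (f (H.term (e, true)) - f (H.term (e, false))) := by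
  classical
  set h : H.BV → ℤ := fun v => if v.1 = e then c + a * (v.2 : ℕ) else 0 with hh
  have hp := (H.blow M).pairing f h
  have hleft : ∑ w, (H.blow M).lap f w * h w =
      ∑ q : Fin (H.l e + 1), (H.blow M).lap f ⟨e, q⟩ * (c + a * (q : ℕ)) := by
    rw [Fintype.sum_sigma, Finset.sum_eq_single e]
    · apply Finset.sum_congr rfl
      intro q _
      simp only [hh, if_true]
    · intro e' _ hne
      apply Finset.sum_eq_zero
      intro q _
      simp only [hh, if_neg hne, mul_zero]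
    · intro hc; exact absurd (Finset.mem_univ _) hc
  rw [← hleft, hp, Fintype.sum_sum_type]
  have hheavy : ∑ x : H.Heavy × Fin M, (f ((H.blow M).tgt (Sum.inr x)) - f ((H.blow M).src (Sum.inr x))) *
      (h ((H.blow M).src (Sum.inr x)) - h ((H.blow M).tgt (Sum.inr x))) = 0 := by
    apply Finset.sum_eq_zero
    intro x _
    have : f ((H.blow M).tgt (Sum.inr x)) = f ((H.blow M).src (Sum.inr x)) :=
      (hf _ _ x.1.2.2).symm
    rw [this, sub_self, zero_mul]
  rw [hheavy, add_zero, Fintype.sum_sigma, Finset.sum_eq_single e]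
  · have h1 : ∀ q : Fin (H.l e), (f ((H.blow M).tgt (Sum.inl ⟨e, q⟩)) - f ((H.blow M).src (Sum.inl ⟨e, q⟩))) *
        (h ((H.blow M).src (Sum.inl ⟨e, q⟩)) - h ((H.blow M).tgt (Sum.inl ⟨e, q⟩))) =
        -a * (f ⟨e, q.succ⟩ - f ⟨e, q.castSucc⟩) := by
      intro q
      have h2 : h ((H.blow M).src (Sum.inl ⟨e, q⟩)) = c + a * (q : ℕ) := by
        simp [hh, blow]
      have h3 : h ((H.blow M).tgt (Sum.inl ⟨e, q⟩)) = c + a * ((q : ℕ) + 1) := by
        simp [hh, blow]
      rw [h2, h3]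
      change (f ⟨e, q.succ⟩ - f ⟨e, q.castSucc⟩) * _ = _
      ring
    rw [Finset.sum_congr rfl (fun q _ => h1 q), ← Finset.mul_sum]
    congr 1
    have h4 := Fin.sum_univ_eq_sum_range (fun i : ℕ =>
      (if hi : i + 1 < H.l e + 1 then f ⟨e, ⟨i + 1, hi⟩⟩ else 0) -
      (if hi : i < H.l e + 1 then f ⟨e, ⟨i, hi⟩⟩ else 0)) (H.l e)
    have h5 : ∑ q : Fin (H.l e), (f ⟨e, q.succ⟩ - f ⟨e, q.castSucc⟩) = ∑ i : Fin (H.l e),
      ((if hi : (i : ℕ) + 1 < H.l e + 1 then f ⟨e, ⟨i + 1, hi⟩⟩ else 0) -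
      (if hi : (i : ℕ) < H.l e + 1 then f ⟨e, ⟨i, hi⟩⟩ else 0)) := by
      apply Finset.sum_congr rfl
      intro q _
      have hq := q.2
      rw [dif_pos (by omega), dif_pos (by omega)]
      rfl
    rw [h5, h4, Finset.sum_range_sub (fun i : ℕ => (if hi : i < H.l e + 1 then f ⟨e, ⟨i, hi⟩⟩ else 0))]
    rw [dif_pos (by omega), dif_pos (by omega)]
    rfl
  · intro e' _ hne
    apply Finset.sum_eq_zero
    intro q _
    have h2 : h ((H.blow M).src (Sum.inl ⟨e', q⟩)) = 0 := by
      simp [hh, blow, hne]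
    have h3 : h ((H.blow M).tgt (Sum.inl ⟨e', q⟩)) = 0 := by
      simp [hh, blow, hne]
    rw [h2, h3]; simp
  · intro hc; exact absurd (Finset.mem_univ _) hc

theorem blob_const (D f : H.BV → ℤ) (h0 : ∀ w, 0 ≤ D w) (h1 : ∀ w, 0 ≤ D w + (H.blow M).lap f w)
    (hM : ∑ w, D w < M) (ε ε' : F × Bool) (h : H.at' ε = H.at' ε') : f (H.term ε) = f (H.term ε') := by
  by_cases he : ε.1 = ε'.1
  · obtain ⟨e, b⟩ := ε
    obtain ⟨e', b'⟩ := ε'
    simp only at he
    subst he
    have : b = b' := by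
      have hh := H.hst e
      unfold at' at h
      cases b <;> cases b' <;> simp_all
    rw [this]
  · refine (H.blow M).heavy D f h0 h1 M hM (fun i => Sum.inr (⟨(ε, ε'), he, h⟩, i)) ?_ _ _
      (fun i => ⟨rfl, rfl⟩)
    intro i j hij
    have := Sum.inr.inj hij
    exact (Prod.mk.inj this).2

theorem lower (hM : Fintype.card F < M) (D : H.BV → ℤ) (h0 : ∀ v, 0 ≤ D v)
    (hdeg : ∑ v, D v ≤ Fintype.card F) (hr : (H.blow M).RankGeOne D) :
    ∃ x : F → ℤ, ∀ (e0 : F) (b : Bool), ∃ Φ : W → ℤ,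
      (∀ e, 0 ≤ x e - (Φ (H.t e) - Φ (H.s e)) ∧ x e - (Φ (H.t e) - Φ (H.s e)) ≤ H.l e) ∧
      x e0 - (Φ (H.t e0) - Φ (H.s e0)) = if b then (H.l e0 : ℤ) else 0 := by
  classical
  have hdM : ∑ v, D v < (M : ℤ) := lt_of_le_of_lt hdeg (by exact_mod_cast hM)
  -- number of chips on a path
  have hN : ∀ f : H.BV → ℤ, (∀ w, 0 ≤ D w + (H.blow M).lap f w) → ∀ e,
      ∑ q : Fin (H.l e + 1), (D ⟨e, q⟩ + (H.blow M).lap f ⟨e, q⟩) = ∑ q : Fin (H.l e + 1), D ⟨e, q⟩ := by
    intro f hf e
    have := H.moment M f (fun ε ε' h => H.blob_const M D f h0 hf hdM ε ε' h) e 1 0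
    simp only [zero_mul, add_zero, mul_one, neg_zero] at this
    rw [Finset.sum_add_distrib, this, add_zero]
  have hN1 : ∀ e, 1 ≤ ∑ q : Fin (H.l e + 1), D ⟨e, q⟩ := by
    intro e
    obtain ⟨f, hf, hf0⟩ := rank_elim _ _ hr ⟨e, 0⟩
    have hf' : ∀ w, 0 ≤ D w + (H.blow M).lap f w := by
      intro w
      by_cases hw : w = ⟨e, 0⟩
      · rw [hw]; linarith
      · exact hf w hw
    rw [← hN f hf' e]
    refine hf0.trans ?_
    exact Finset.single_le_sum (f := fun q : Fin (H.l e + 1) => D ⟨e, q⟩ + (H.blow M).lap f ⟨e, q⟩)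
      (fun q _ => hf' ⟨e, q⟩) (Finset.mem_univ 0)
  have hNe : ∀ e, ∑ q : Fin (H.l e + 1), D ⟨e, q⟩ = 1 := by
    rw [Fintype.sum_sigma] at hdeg
    have h2 : ∑ e : F, (∑ q : Fin (H.l e + 1), D ⟨e, q⟩ - 1) = 0 := by
      apply le_antisymm
      · rw [Finset.sum_sub_distrib]
        simp only [Finset.sum_const, Finset.card_univ, nsmul_eq_mul, mul_one]
        linarith
      · exact Finset.sum_nonneg (fun e _ => by have := hN1 e; linarith)
    rw [Finset.sum_eq_zero_iff_of_nonneg (fun e _ => by have := hN1 e; linarith)] at h2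
    intro e
    have := h2 e (Finset.mem_univ e)
    linarith
  refine ⟨fun e => ∑ q : Fin (H.l e + 1), D ⟨e, q⟩ * (q : ℕ), ?_⟩
  intro e0 b
  obtain ⟨f, hf, hf0⟩ := rank_elim _ _ hr (H.term (e0, b))
  have hf' : ∀ w, 0 ≤ D w + (H.blow M).lap f w := by
    intro w
    by_cases hw : w = H.term (e0, b)
    · rw [hw]; linarith
    · exact hf w hw
  have hconst := fun ε ε' h => H.blob_const M D f h0 hf' hdM ε ε' h
  set Φ : W → ℤ := fun w => if h : ∃ ε, H.at' ε = w then f (H.term h.choose) else 0 with hΦ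
  have hΦ' : ∀ ε, Φ (H.at' ε) = f (H.term ε) := by
    intro ε
    have h : ∃ ε', H.at' ε' = H.at' ε := ⟨ε, rfl⟩
    simp only [hΦ]
    rw [dif_pos h]
    exact hconst _ _ h.choose_spec
  have hΦs : ∀ e, Φ (H.s e) = f (H.term (e, false)) := fun e => hΦ' (e, false)
  have hΦt : ∀ e, Φ (H.t e) = f (H.term (e, true)) := fun e => hΦ' (e, true)
  have hmom : ∀ e, ∑ q : Fin (H.l e + 1), D ⟨e, q⟩ * ((q : ℕ) : ℤ) - (Φ (H.t e) - Φ (H.s e)) =
      ∑ q : Fin (H.l e + 1), (D ⟨e, q⟩ + (H.blow M).lap f ⟨e, q⟩) * ((q : ℕ) : ℤ) := by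
    intro e
    have := H.moment M f hconst e 0 1
    simp only [zero_add, one_mul] at this
    simp only [add_mul]
    rw [Finset.sum_add_distrib, this, hΦs, hΦt]
    ring
  refine ⟨Φ, ?_, ?_⟩
  · intro e
    simp only
    rw [hmom e]
    have h3 := (hN f hf' e).trans (hNe e)
    constructor
    · apply Finset.sum_nonneg
      intro q _
      exact mul_nonneg (hf' _) (by positivity)
    · have : ∑ q : Fin (H.l e + 1), (D ⟨e, q⟩ + (H.blow M).lap f ⟨e, q⟩) * ((q : ℕ) : ℤ) ≤
          ∑ q : Fin (H.l e + 1), (D ⟨e, q⟩ + (H.blow M).lap f ⟨e, q⟩) * (H.l e : ℤ) := by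
        apply Finset.sum_le_sum
        intro q _
        apply mul_le_mul_of_nonneg_left _ (hf' _)
        have := q.2
        exact_mod_cast (by omega : (q : ℕ) ≤ H.l e)
      rw [← Finset.sum_mul, h3, one_mul] at this
      exact this
  · simp only
    rw [hmom e0]
    have h3 := (hN f hf' e0).trans (hNe e0)
    -- all other entries vanish
    set q0 : Fin (H.l e0 + 1) := if b then Fin.last _ else 0 with hq0
    have hterm : H.term (e0, b) = ⟨e0, q0⟩ := by
      simp only [term, hq0]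
    have hz : ∀ q, q ≠ q0 → D ⟨e0, q⟩ + (H.blow M).lap f ⟨e0, q⟩ = 0 := by
      intro q hq
      have h4 : (D ⟨e0, q⟩ + (H.blow M).lap f ⟨e0, q⟩) + (D ⟨e0, q0⟩ + (H.blow M).lap f ⟨e0, q0⟩) ≤ 1 := by
        rw [← h3]
        rw [← Finset.sum_pair (f := fun q => D ⟨e0, q⟩ + (H.blow M).lap f ⟨e0, q⟩) hq]
        apply Finset.sum_le_sum_of_subset_of_nonneg (Finset.subset_univ _)
        intro i _ _
        exact hf' _
      rw [hterm] at hf0
      have h5 := hf' ⟨e0, q⟩
      linarith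
    have hone : D ⟨e0, q0⟩ + (H.blow M).lap f ⟨e0, q0⟩ = 1 := by
      rw [← h3, Finset.sum_eq_single q0]
      · intro q _ hq
        exact hz q hq
      · intro hc; exact absurd (Finset.mem_univ _) hc
    rw [Finset.sum_eq_single q0]
    · rw [hone, one_mul]
      simp only [hq0]
      cases b <;> simp
    · intro q _ hq
      rw [hz q hq, zero_mul]
    · intro hc; exact absurd (Finset.mem_univ _) hc

end lower

end HG

end Pool.Agent.Hhelper52.Gon
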