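import Mathlib
import Pool.Agent.Hhelper52.GonDefs
import Pool.Agent.Hhelper52.GonBasic
import Pool.Agent.Hhelper52.GonBlow

set_option autoImplicit false

/-! Upper bound for the gonality of subdivisions of a blow-up. -/

namespace Pool.Agent.Hhelper52.Gon

open MGraph

/-- telescoping with a ramp. -/
theorem ramp_sum (Hf : ℕ → ℤ) (y : ℕ) : ∀ L : ℕ, y ≤ L →
    ∑ τ ∈ Finset.range L, (max (((τ + 1 : ℕ) : ℤ) - y) 0 - max ((τ : ℤ) - y) 0) * (Hf τ - Hf (τ + 1)) =
      Hf y - Hf L := by
  intro L hL
  induction L, hL using Nat.le_induction with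
  | base =>
    rw [sub_self]
    apply Finset.sum_eq_zero
    intro τ hτ
    rw [Finset.mem_range] at hτ
    have h1 : max (((τ + 1 : ℕ) : ℤ) - y) 0 = 0 := max_eq_right (by push_cast; omega)
    have h2 : max ((τ : ℤ) - y) 0 = 0 := max_eq_right (by omega)
    rw [h1, h2]; simp
  | succ L hL ih =>
    rw [Finset.sum_range_succ, ih]
    have h1 : max (((L + 1 : ℕ) : ℤ) - y) 0 = (L : ℤ) + 1 - y := by
      rw [max_eq_left (by push_cast; omega)]; push_cast; ring
    have h2 : max ((L : ℤ) - y) 0 = L - y := max_eq_left (by omega)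
    rw [h1, h2]
    ring

theorem sum_blocks (A : ℕ → ℤ) (k l : ℕ) :
    ∑ q : Fin l, ∑ i : Fin k, A (k * q + i) = ∑ τ ∈ Finset.range (k * l), A τ := by
  rw [Fin.sum_univ_eq_sum_range (fun q : ℕ => ∑ i : Fin k, A (k * q + i)) l]
  induction l with
  | zero => simp
  | succ l ih =>
    rw [Finset.sum_range_succ, ih, Nat.mul_succ, Finset.sum_range_add]
    congr 1
    exact Fin.sum_univ_eq_sum_range (fun i : ℕ => A (k * l + i)) k

namespace MGraph

variable {V E : Type} [Fintype V] [Fintype E]

/-- Chips on both ends of an edge `b` can be moved to a given interior vertex of the subdivided edge. -/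
theorem split (G : MGraph V E) (k : ℕ) (hk : 1 ≤ k) (b : E) (j : Fin (k - 1))
    (D : V ⊕ (E × Fin (k - 1)) → ℤ) (h0 : ∀ w, 0 ≤ D w)
    (hu : 1 ≤ D (Sum.inl (G.src b))) (hv : 1 ≤ D (Sum.inl (G.tgt b))) :
    ∃ f : V ⊕ (E × Fin (k - 1)) → ℤ, (∀ w, 0 ≤ D w + (G.subdiv k).lap f w) ∧
      1 ≤ D (Sum.inr (b, j)) + (G.subdiv k).lap f (Sum.inr (b, j)) := by
  classical
  have hj := j.2
  set a : ℕ := j + 1 with ha
  set val : ℕ → ℤ := fun i => max ((i : ℤ) - a) 0 + max ((i : ℤ) - (k - a : ℕ)) 0 - max ((i : ℤ) - (0 : ℕ)) 0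
    with hval
  have hval0 : val 0 = 0 := by
    simp only [hval]
    rw [max_eq_right (by omega), max_eq_right (by omega), max_eq_right (by omega)]
    simp
  have hvalk : val k = 0 := by
    simp only [hval]
    rw [max_eq_left (by omega), max_eq_left (by omega), max_eq_left (by omega)]
    omega
  set f : V ⊕ (E × Fin (k - 1)) → ℤ := fun w => match w with
    | Sum.inl _ => 0
    | Sum.inr p => if p.1 = b then val (p.2 + 1) else 0 with hf
  have hnode : ∀ i ≤ k, f (G.node k b i) = val i := by
    intro i hi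
    rcases Nat.eq_zero_or_pos i with h | h
    · subst h
      rw [node_zero, hval0]
    · rcases Nat.lt_or_ge i k with h2 | h2
      · obtain ⟨m, rfl⟩ : ∃ m, i = m + 1 := ⟨i - 1, by omega⟩
        have := G.node_mid k b ⟨m, by omega⟩
        simp only at this
        rw [this]
        simp only [hf, if_true]
      · have : i = k := by omega
        subst this
        rw [node_last G i hk, hvalk]
  have hnode' : ∀ e ≠ b, ∀ i ≤ k, f (G.node k e i) = 0 := by
    intro e he i hi
    unfold node
    split_ifs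
    · rfl
    · simp only [hf, if_neg he]
    · rfl
  have hpair : ∀ h : V ⊕ (E × Fin (k - 1)) → ℤ, ∑ w, (G.subdiv k).lap f w * h w =
      h (G.node k b a) + h (G.node k b (k - a)) - h (G.node k b 0) - h (G.node k b k) := by
    intro h
    rw [(G.subdiv k).pairing f h, Fintype.sum_prod_type, Finset.sum_eq_single b]
    · set Hf : ℕ → ℤ := fun i => h (G.node k b i) with hHf
      have h1 : ∀ i : Fin k, (f ((G.subdiv k).tgt (b, i)) - f ((G.subdiv k).src (b, i))) *
          (h ((G.subdiv k).src (b, i)) - h ((G.subdiv k).tgt (b, i))) =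
          (max (((i + 1 : ℕ) : ℤ) - a) 0 - max (((i : ℕ) : ℤ) - a) 0) * (Hf i - Hf (i + 1)) +
          (max (((i + 1 : ℕ) : ℤ) - (k - a : ℕ)) 0 - max (((i : ℕ) : ℤ) - (k - a : ℕ)) 0) * (Hf i - Hf (i + 1)) -
          (max (((i + 1 : ℕ) : ℤ) - (0 : ℕ)) 0 - max (((i : ℕ) : ℤ) - (0 : ℕ)) 0) * (Hf i - Hf (i + 1)) := by
        intro i
        have hi := i.2
        change (f (G.node k b (i + 1)) - f (G.node k b i)) * (h (G.node k b i) - h (G.node k b (i + 1))) = _
        rw [hnode _ (by omega), hnode _ (by omega)]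
        simp only [hval, hHf]
        ring
      rw [Finset.sum_congr rfl (fun i _ => h1 i), Finset.sum_sub_distrib, Finset.sum_add_distrib]
      rw [Fin.sum_univ_eq_sum_range (fun i : ℕ => (max (((i + 1 : ℕ) : ℤ) - a) 0 - max ((i : ℤ) - a) 0) *
        (Hf i - Hf (i + 1))) k]
      rw [Fin.sum_univ_eq_sum_range (fun i : ℕ => (max (((i + 1 : ℕ) : ℤ) - (k - a : ℕ)) 0 -
        max ((i : ℤ) - (k - a : ℕ)) 0) * (Hf i - Hf (i + 1))) k]
      rw [Fin.sum_univ_eq_sum_range (fun i : ℕ => (max (((i + 1 : ℕ) : ℤ) - (0 : ℕ)) 0 -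
        max ((i : ℤ) - (0 : ℕ)) 0) * (Hf i - Hf (i + 1))) k]
      rw [ramp_sum Hf a k (by omega), ramp_sum Hf (k - a) k (by omega), ramp_sum Hf 0 k (by omega)]
      simp only [hHf]
      ring
    · intro e _ he
      apply Finset.sum_eq_zero
      intro i _
      have hi := i.2
      have h1 : f ((G.subdiv k).tgt (e, i)) = 0 := hnode' e he (i + 1) (by omega)
      have h2 : f ((G.subdiv k).src (e, i)) = 0 := hnode' e he i (by omega)
      rw [h1, h2]; simp
    · intro hc; exact absurd (Finset.mem_univ _) hc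
  have hlap : ∀ w, (G.subdiv k).lap f w = (if G.node k b a = w then 1 else 0) +
      (if G.node k b (k - a) = w then 1 else 0) - (if G.node k b 0 = w then 1 else 0) -
      (if G.node k b k = w then 1 else 0) := by
    intro w
    have := hpair (fun z => if z = w then 1 else 0)
    rw [← this]
    simp
  refine ⟨f, ?_, ?_⟩
  · intro w
    rw [hlap w, node_zero, node_last G k hk]
    have hne : (Sum.inl (G.src b) : V ⊕ (E × Fin (k - 1))) ≠ Sum.inl (G.tgt b) := by
      intro h; exact G.loopless b (Sum.inl.inj h)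
    have h1 : (0 : ℤ) ≤ (if G.node k b a = w then 1 else 0) := by split_ifs <;> norm_num
    have h2 : (0 : ℤ) ≤ (if G.node k b (k - a) = w then 1 else 0) := by split_ifs <;> norm_num
    by_cases h3 : Sum.inl (G.src b) = w
    · have h4 : ¬ (Sum.inl (G.tgt b) = w) := fun h => hne (h3.trans h.symm)
      rw [if_pos h3, if_neg h4]
      subst h3
      linarith
    · by_cases h4 : Sum.inl (G.tgt b) = w
      · rw [if_neg h3, if_pos h4]
        subst h4
        linarith
      · rw [if_neg h3, if_neg h4]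
        have := h0 w
        linarith
  · rw [hlap, node_zero, node_last G k hk]
    have h1 : G.node k b a = Sum.inr (b, j) := G.node_mid k b j
    have h3 : ¬ ((Sum.inl (G.src b) : V ⊕ (E × Fin (k - 1))) = Sum.inr (b, j)) := by simp
    have h4 : ¬ ((Sum.inl (G.tgt b) : V ⊕ (E × Fin (k - 1))) = Sum.inr (b, j)) := by simp
    rw [if_pos h1, if_neg h3, if_neg h4]
    have h2 : (0 : ℤ) ≤ (if G.node k b (k - a) = Sum.inr (b, j) then 1 else 0) := by
      split_ifs <;> norm_num
    have := h0 (Sum.inr (b, j))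
    linarith

end MGraph

namespace HG

variable {W F : Type} (H : HG W F) (M k : ℕ)

/-- position `τ` on the path of the edge `e` in the subdivided blow-up. -/
def P (e : F) (τ : ℕ) : H.BV ⊕ (H.BE M × Fin (k - 1)) :=
  if h : τ / k < H.l e then (H.blow M).node k (Sum.inl ⟨e, ⟨τ / k, h⟩⟩) (τ % k)
  else Sum.inl (H.term (e, true))

theorem P_lt (hk : 1 ≤ k) (e : F) (q : Fin (H.l e)) (i : ℕ) (hi : i < k) :
    H.P M k e (k * q + i) = (H.blow M).node k (Sum.inl ⟨e, q⟩) i := by
  unfold P
  have h1 : (k * (q : ℕ) + i) / k = q := by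
    rw [Nat.mul_add_div (by omega), Nat.div_eq_of_lt hi, add_zero]
  have h2 : (k * (q : ℕ) + i) % k = i := by
    rw [Nat.mul_add_mod, Nat.mod_eq_of_lt hi]
  rw [dif_pos (by rw [h1]; exact q.2)]
  simp only [h1, h2]

theorem P_end (hk : 1 ≤ k) (e : F) : H.P M k e (k * H.l e) = Sum.inl (H.term (e, true)) := by
  unfold P
  rw [dif_neg]
  rw [Nat.mul_div_cancel_left _ (by omega)]
  omega

theorem P_le (hk : 1 ≤ k) (e : F) (q : Fin (H.l e)) (i : ℕ) (hi : i ≤ k) :
    H.P M k e (k * q + i) = (H.blow M).node k (Sum.inl ⟨e, q⟩) i := by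
  rcases Nat.lt_or_ge i k with h | h
  · exact H.P_lt M k hk e q i h
  · have : i = k := by omega
    subst this
    rw [node_last _ i hk]
    have hq := q.2
    have h1 : i * (q : ℕ) + i = i * (q + 1) := by ring
    rw [h1]
    rcases Nat.lt_or_ge ((q : ℕ) + 1) (H.l e) with h2 | h2
    · have := H.P_lt M i hk e ⟨q + 1, h2⟩ 0 (by omega)
      simp only [add_zero] at this
      rw [this, node_zero]
      rfl
    · have h3 : (q : ℕ) + 1 = H.l e := by omega
      rw [h3, H.P_end M i hk]
      congr 1
      simp only [term, blow, if_true]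
      congr 1
      ext
      simp only [Fin.val_last, Fin.val_succ]
      omega

variable [Fintype F] [DecidableEq F] [DecidableEq W]

open Classical in
/-- one chip on every path, at the position `x e`. -/
noncomputable def chips (x : F → ℕ) (w : H.BV ⊕ (H.BE M × Fin (k - 1))) : ℤ :=
  ∑ e, if H.P M k e (x e) = w then 1 else 0

open Classical in
theorem move (hk : 1 ≤ k) (x y : F → ℕ) (hx : ∀ e, x e ≤ k * H.l e) (hy : ∀ e, y e ≤ k * H.l e)
    (Φ : W → ℤ) (hΦ : ∀ e, (y e : ℤ) = x e - (Φ (H.t e) - Φ (H.s e))) :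
    ∃ f : H.BV ⊕ (H.BE M × Fin (k - 1)) → ℤ, ∀ w,
      H.chips M k x w + ((H.blow M).subdiv k).lap f w = H.chips M k y w := by
  set g : F → ℕ → ℤ := fun e τ => Φ (H.s e) + max ((τ : ℤ) - y e) 0 - max ((τ : ℤ) - x e) 0 with hg
  have hg0 : ∀ e, g e 0 = Φ (H.s e) := by
    intro e
    simp only [hg]
    rw [max_eq_right (by omega), max_eq_right (by omega)]
    ring
  have hgk : ∀ e, g e (k * H.l e) = Φ (H.t e) := by
    intro e
    simp only [hg]
    have h1 := hx e
    have h2 := hy e
    have h1' : (x e : ℤ) ≤ ((k * H.l e : ℕ) : ℤ) := by exact_mod_cast h1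
    have h2' : (y e : ℤ) ≤ ((k * H.l e : ℕ) : ℤ) := by exact_mod_cast h2
    rw [max_eq_left (by linarith), max_eq_left (by linarith), hΦ e]
    ring
  set f : H.BV ⊕ (H.BE M × Fin (k - 1)) → ℤ := fun w => match w with
    | Sum.inl p => g p.1 (k * p.2)
    | Sum.inr (Sum.inl p, j) => g p.1 (k * p.2 + (j + 1))
    | Sum.inr (Sum.inr p, _) => Φ (H.at' p.1.1.1) with hf
  have hfterm : ∀ ε, f (Sum.inl (H.term ε)) = Φ (H.at' ε) := by
    intro ε
    obtain ⟨e, b⟩ := ε
    cases b
    · simp only [hf, term, at']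
      simp [hg0]
    · simp only [hf, term, at']
      simp [hgk]
  have hfpath : ∀ (e : F) (q : Fin (H.l e)) (i : ℕ), i ≤ k →
      f ((H.blow M).node k (Sum.inl ⟨e, q⟩) i) = g e (k * q + i) := by
    intro e q i hi
    rcases Nat.eq_zero_or_pos i with h | h
    · subst h
      rw [node_zero]
      rfl
    · rcases Nat.lt_or_ge i k with h2 | h2
      · obtain ⟨m, rfl⟩ : ∃ m, i = m + 1 := ⟨i - 1, by omega⟩
        have := (H.blow M).node_mid k (Sum.inl ⟨e, q⟩) ⟨m, by omega⟩
        simp only at this
        rw [this]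
      · have : i = k := by omega
        subst this
        rw [node_last _ i hk]
        have h3 : i * (q : ℕ) + i = i * (q + 1) := by ring
        rw [h3]
        rfl
  have hfheavy : ∀ (p : H.Heavy × Fin M) (i : ℕ), i ≤ k →
      f ((H.blow M).node k (Sum.inr p) i) = Φ (H.at' p.1.1.1) := by
    intro p i hi
    rcases Nat.eq_zero_or_pos i with h | h
    · subst h
      rw [node_zero]
      exact hfterm _
    · rcases Nat.lt_or_ge i k with h2 | h2
      · obtain ⟨m, rfl⟩ : ∃ m, i = m + 1 := ⟨i - 1, by omega⟩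
        have := (H.blow M).node_mid k (Sum.inr p) ⟨m, by omega⟩
        simp only at this
        rw [this]
      · have : i = k := by omega
        subst this
        rw [node_last _ i hk, p.1.2.2]
        exact hfterm _
  have hpair : ∀ h : H.BV ⊕ (H.BE M × Fin (k - 1)) → ℤ,
      ∑ w, ((H.blow M).subdiv k).lap f w * h w =
        ∑ e, (h (H.P M k e (y e)) - h (H.P M k e (x e))) := by
    intro h
    rw [((H.blow M).subdiv k).pairing f h, Fintype.sum_prod_type, Fintype.sum_sum_type]
    have hheavy : ∑ p : H.Heavy × Fin M, ∑ i : Fin k,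
        (f (((H.blow M).subdiv k).tgt (Sum.inr p, i)) - f (((H.blow M).subdiv k).src (Sum.inr p, i))) *
        (h (((H.blow M).subdiv k).src (Sum.inr p, i)) - h (((H.blow M).subdiv k).tgt (Sum.inr p, i))) = 0 := by
      apply Finset.sum_eq_zero
      intro p _
      apply Finset.sum_eq_zero
      intro i _
      have hi := i.2
      have h1 : f (((H.blow M).subdiv k).tgt (Sum.inr p, i)) = Φ (H.at' p.1.1.1) :=
        hfheavy p (i + 1) (by omega)
      have h2 : f (((H.blow M).subdiv k).src (Sum.inr p, i)) = Φ (H.at' p.1.1.1) :=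
        hfheavy p i (by omega)
      rw [h1, h2]; simp
    rw [hheavy, add_zero, Fintype.sum_sigma]
    apply Finset.sum_congr rfl
    intro e _
    set Hf : ℕ → ℤ := fun τ => h (H.P M k e τ) with hHf
    set A : ℕ → ℤ := fun τ => (max (((τ + 1 : ℕ) : ℤ) - y e) 0 - max ((τ : ℤ) - y e) 0) * (Hf τ - Hf (τ + 1)) -
      (max (((τ + 1 : ℕ) : ℤ) - x e) 0 - max ((τ : ℤ) - x e) 0) * (Hf τ - Hf (τ + 1)) with hA
    have h1 : ∀ (q : Fin (H.l e)) (i : Fin k),
        (f (((H.blow M).subdiv k).tgt (Sum.inl ⟨e, q⟩, i)) - f (((H.blow M).subdiv k).src (Sum.inl ⟨e, q⟩, i))) *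
        (h (((H.blow M).subdiv k).src (Sum.inl ⟨e, q⟩, i)) - h (((H.blow M).subdiv k).tgt (Sum.inl ⟨e, q⟩, i))) =
        A (k * q + i) := by
      intro q i
      have hi := i.2
      change (f ((H.blow M).node k (Sum.inl ⟨e, q⟩) (i + 1)) - f ((H.blow M).node k (Sum.inl ⟨e, q⟩) i)) *
        (h ((H.blow M).node k (Sum.inl ⟨e, q⟩) i) - h ((H.blow M).node k (Sum.inl ⟨e, q⟩) (i + 1))) = _
      rw [hfpath e q _ (by omega), hfpath e q _ (by omega), ← H.P_le M k hk e q _ (by omega),
        ← H.P_le M k hk e q _ (by omega)]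
      simp only [hA, hHf, hg]
      have e1 : k * (q : ℕ) + ((i : ℕ) + 1) = k * (q : ℕ) + (i : ℕ) + 1 := by ring
      rw [e1]
      ring
    rw [Finset.sum_congr rfl (fun q _ => Finset.sum_congr rfl (fun i _ => h1 q i)), sum_blocks A]
    simp only [hA]
    rw [Finset.sum_sub_distrib, ramp_sum Hf (y e) _ (hy e), ramp_sum Hf (x e) _ (hx e)]
    simp only [hHf]
    ring
  refine ⟨f, ?_⟩
  intro w
  have := hpair (fun z => if z = w then 1 else 0)
  simp only [mul_ite, mul_one, mul_zero, Finset.sum_ite_eq', Finset.mem_univ, if_true] at this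
  rw [this, Finset.sum_sub_distrib]
  unfold chips
  ring

theorem chips_nonneg (x : F → ℕ) (w) : 0 ≤ H.chips M k x w := by
  classical
  unfold chips
  apply Finset.sum_nonneg
  intro e _
  split_ifs <;> norm_num

theorem chips_pos (x : F → ℕ) (e : F) : 1 ≤ H.chips M k x (H.P M k e (x e)) := by
  classical
  unfold chips
  have := Finset.single_le_sum (f := fun e' => if H.P M k e' (x e') = H.P M k e (x e) then (1 : ℤ) else 0)
    (s := Finset.univ) (fun e' _ => by split_ifs <;> norm_num) (Finset.mem_univ e)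
  simpa using this

theorem chips_sum (x : F → ℕ) : ∑ w, H.chips M k x w = Fintype.card F := by
  classical
  unfold chips
  rw [Finset.sum_comm]
  simp

theorem upper (hk : 1 ≤ k) (x : F → ℕ) (hx : ∀ e, x e ≤ k * H.l e) (Φ : W → W → ℤ)
    (ha : ∀ w e, 0 ≤ (x e : ℤ) - (Φ w (H.t e) - Φ w (H.s e)) ∧
      (x e : ℤ) - (Φ w (H.t e) - Φ w (H.s e)) ≤ ((k * H.l e : ℕ) : ℤ))
    (hb : ∀ e, Φ (H.s e) (H.t e) - Φ (H.s e) (H.s e) = x e ∧
      Φ (H.t e) (H.s e) - Φ (H.t e) (H.t e) = ((k * H.l e : ℕ) : ℤ) - x e) :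
    ((H.blow M).subdiv k).gon ≤ Fintype.card F := by
  classical
  refine gon_le _ _ (H.chips M k x) (H.chips_nonneg M k x) (H.chips_sum M k x) ?_
  apply rank_intro
  -- enough: some equivalent configuration with a chip at the vertex
  have key : ∀ v, (∃ f : H.BV ⊕ (H.BE M × Fin (k - 1)) → ℤ,
      (∀ w, 0 ≤ H.chips M k x w + ((H.blow M).subdiv k).lap f w) ∧
      1 ≤ H.chips M k x v + ((H.blow M).subdiv k).lap f v) := by
    -- path vertices
    have hpath : ∀ (e : F) (τ : ℕ), τ ≤ k * H.l e → ∃ f : H.BV ⊕ (H.BE M × Fin (k - 1)) → ℤ,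
        (∀ w, 0 ≤ H.chips M k x w + ((H.blow M).subdiv k).lap f w) ∧
        1 ≤ H.chips M k x (H.P M k e τ) + ((H.blow M).subdiv k).lap f (H.P M k e τ) := by
      intro e τ hτ
      set c : ℤ := (τ : ℤ) - (k * H.l e : ℕ) + x e + Φ (H.s e) (H.s e) - Φ (H.t e) (H.t e) with hc
      set Ψ : W → ℤ := fun v => max (Φ (H.s e) v) (Φ (H.t e) v + c) with hΨ
      have hΨs : Ψ (H.s e) = Φ (H.s e) (H.s e) + τ := by
        simp only [hΨ, hc]
        have := (hb e).2
        rw [max_eq_right (by linarith)]
        linarith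
      have hΨt : Ψ (H.t e) = Φ (H.s e) (H.s e) + x e := by
        simp only [hΨ, hc]
        have h1 := (hb e).1
        have h2 : (τ : ℤ) ≤ ((k * H.l e : ℕ) : ℤ) := by exact_mod_cast hτ
        rw [max_eq_left (by linarith)]
        linarith
      have hfeas : ∀ e', 0 ≤ (x e' : ℤ) - (Ψ (H.t e') - Ψ (H.s e')) ∧
          (x e' : ℤ) - (Ψ (H.t e') - Ψ (H.s e')) ≤ ((k * H.l e' : ℕ) : ℤ) := by
        intro e'
        obtain ⟨h1, h2⟩ := ha (H.s e) e'
        obtain ⟨h3, h4⟩ := ha (H.t e) e'
        simp only [hΨ]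
        constructor
        · rcases max_cases (Φ (H.s e) (H.t e')) (Φ (H.t e) (H.t e') + c) with ⟨h5, _⟩ | ⟨h5, _⟩
          · have := le_max_left (Φ (H.s e) (H.s e')) (Φ (H.t e) (H.s e') + c)
            linarith
          · have := le_max_right (Φ (H.s e) (H.s e')) (Φ (H.t e) (H.s e') + c)
            linarith
        · rcases max_cases (Φ (H.s e) (H.s e')) (Φ (H.t e) (H.s e') + c) with ⟨h5, _⟩ | ⟨h5, _⟩
          · have := le_max_left (Φ (H.s e) (H.t e')) (Φ (H.t e) (H.t e') + c)
            linarith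
          · have := le_max_right (Φ (H.s e) (H.t e')) (Φ (H.t e) (H.t e') + c)
            linarith
      set y : F → ℕ := fun e' => ((x e' : ℤ) - (Ψ (H.t e') - Ψ (H.s e'))).toNat with hy
      have hyz : ∀ e', (y e' : ℤ) = x e' - (Ψ (H.t e') - Ψ (H.s e')) := by
        intro e'
        simp only [hy]
        rw [Int.toNat_of_nonneg (hfeas e').1]
      have hyle : ∀ e', y e' ≤ k * H.l e' := by
        intro e'
        have := (hfeas e').2
        rw [← hyz e'] at this
        exact_mod_cast this
      obtain ⟨f, hf⟩ := H.move M k hk x y hx hyle Ψ hyz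
      have hye : y e = τ := by
        have := hyz e
        rw [hΨs, hΨt] at this
        have h2 : (y e : ℤ) = τ := by linarith
        exact_mod_cast h2
      refine ⟨f, ?_, ?_⟩
      · intro w; rw [hf w]; exact H.chips_nonneg M k y w
      · rw [hf, ← hye]; exact H.chips_pos M k y e
    intro v
    rcases v with ⟨e, q⟩ | ⟨b | p, j⟩
    · -- original path vertex
      rcases Nat.lt_or_ge (q : ℕ) (H.l e) with hq | hq
      · have h1 := H.P_lt M k hk e ⟨q, hq⟩ 0 (by omega)
        rw [node_zero] at h1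
        simp only [add_zero] at h1
        have h2 := hpath e (k * q) (Nat.mul_le_mul_left k hq.le)
        rw [h1] at h2
        exact h2
      · have h1 := H.P_end M k hk e
        have h2 := hpath e (k * H.l e) le_rfl
        rw [h1] at h2
        have h3 : H.term (e, true) = ⟨e, q⟩ := by
          simp only [term, if_true]
          congr 1
          ext
          simp only [Fin.val_last]
          have := q.2
          omega
        rw [h3] at h2
        exact h2
    · -- subdivision vertex of a path edge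
      obtain ⟨e, q⟩ := b
      have hj := j.2
      have h1 := H.P_lt M k hk e q (j + 1) (by omega)
      rw [node_mid] at h1
      have hq : (q : ℕ) + 1 ≤ H.l e := q.2
      have h2 := hpath e (k * q + (j + 1)) (by
        calc k * (q : ℕ) + (j + 1) ≤ k * q + k := by omega
          _ = k * (q + 1) := by ring
          _ ≤ k * H.l e := Nat.mul_le_mul_left k hq)
      rw [h1] at h2
      exact h2
    · -- subdivision vertex of a heavy edge
      set w0 : W := H.at' p.1.1.1 with hw0
      set y : F → ℕ := fun e' => ((x e' : ℤ) - (Φ w0 (H.t e') - Φ w0 (H.s e'))).toNat with hy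
      have hyz : ∀ e', (y e' : ℤ) = x e' - (Φ w0 (H.t e') - Φ w0 (H.s e')) := by
        intro e'
        simp only [hy]
        rw [Int.toNat_of_nonneg (ha w0 e').1]
      have hyle : ∀ e', y e' ≤ k * H.l e' := by
        intro e'
        have := (ha w0 e').2
        rw [← hyz e'] at this
        exact_mod_cast this
      obtain ⟨f, hf⟩ := H.move M k hk x y hx hyle (Φ w0) hyz
      have hterm : ∀ ε, H.at' ε = w0 → H.P M k ε.1 (y ε.1) = Sum.inl (H.term ε) := by
        intro ε hε
        obtain ⟨e, b⟩ := ε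
        cases b
        · have h1 : H.s e = w0 := by simpa [at'] using hε
          have h2 : y e = 0 := by
            have h3 := hyz e
            have h4 := (hb e).1
            rw [h1] at h4
            rw [h1, h4] at h3
            have : (y e : ℤ) = 0 := by linarith
            exact_mod_cast this
          rw [h2]
          have h5 := H.P_lt M k hk e ⟨0, H.lpos e⟩ 0 (by omega)
          simp only [mul_zero, add_zero] at h5
          rw [h5, node_zero]
          rfl
        · have h1 : H.t e = w0 := by simpa [at'] using hε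
          have h2 : y e = k * H.l e := by
            have h3 := hyz e
            have h4 := (hb e).2
            rw [h1] at h4
            rw [h1] at h3
            have : (y e : ℤ) = ((k * H.l e : ℕ) : ℤ) := by linarith
            exact_mod_cast this
          rw [h2, H.P_end M k hk e]
      obtain ⟨f2, hf2, hf2'⟩ := (H.blow M).split k hk (Sum.inr p) j (H.chips M k y)
        (H.chips_nonneg M k y) (by
          have := H.chips_pos M k y p.1.1.1.1
          rw [hterm p.1.1.1 rfl] at this
          exact this) (by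
          have := H.chips_pos M k y p.1.1.2.1
          rw [hterm p.1.1.2 p.1.2.2.symm] at this
          exact this)
      have hadd : ∀ w, ((H.blow M).subdiv k).lap (fun z => f z + f2 z) w =
          ((H.blow M).subdiv k).lap f w + ((H.blow M).subdiv k).lap f2 w := by
        intro w
        unfold lap
        rw [← Finset.sum_add_distrib]
        apply Finset.sum_congr rfl
        intro e _
        split_ifs <;> ring
      refine ⟨fun z => f z + f2 z, ?_, ?_⟩
      · intro w
        rw [hadd, ← add_assoc, hf w]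
        exact hf2 w
      · rw [hadd, ← add_assoc, hf]
        exact hf2'
  intro v
  obtain ⟨f, h1, h2⟩ := key v
  exact ⟨f, fun w _ => h1 w, h2⟩

end HG

end Pool.Agent.Hhelper52.Gon
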